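import Pool.Agent.Work.MP_46fa68_14.Rare3

/-!
# MP_46fa68_co: a fixed list of rare layer pairs is rare for all `m` (helper27)

Level `N = 2 (μ + i)`, factor `(μ + i + 1)!`.  The shapes with the first two rows `l1 + i`, `l2 + i`.
-/

set_option autoImplicit false

open Finset Equiv

namespace Pool.JM.Rare

open Pool.JM

/-- the cost of the shapes with the first two rows `l1 + i`, `l2 + i` -/
noncomputable def cst (μ l1 l2 i : ℕ) : ℝ :=
  ((μ + i + 1).factorial : ℝ) * (((2 * (μ + i)).factorial : ℝ) * (((l1 : ℝ) - l2 + 1) /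
    (((l1 + i + 1).factorial : ℝ) * ((l2 + i).factorial : ℝ))) ^ 2 /
      ((2 * μ - l1 - l2).factorial : ℝ))

theorem cst_nonneg (μ l1 l2 i : ℕ) : 0 ≤ cst μ l1 l2 i := by
  unfold cst
  positivity

theorem grow {x U V : ℝ} (hx : 0 < x) (hU : 0 < U) (hV : 0 < V) (hS : U + V ≤ 2 * x)
    (h : 4 * x ^ 3 ≤ (U * V) ^ 2) : 4 * (x + 1) ^ 3 ≤ ((U + 1) * (V + 1)) ^ 2 := by
  have h1 : U * V * (x + 1) ^ 2 ≤ (U + 1) * (V + 1) * x ^ 2 := by
    have h2 : U * V ≤ (U + V) ^ 2 / 4 := by nlinarith [sq_nonneg (U - V)]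
    have h3 : U * V * (2 * x + 1) ≤ (U + V) ^ 2 / 4 * (2 * x + 1) :=
      mul_le_mul_of_nonneg_right h2 (by linarith)
    obtain ⟨S, hSd⟩ : ∃ S : ℝ, S = U + V := ⟨_, rfl⟩
    rw [← hSd] at hS h3
    have hS0 : 0 < S := by rw [hSd]; linarith
    have h4 : 0 ≤ x * S * (x - S / 2) := mul_nonneg (by positivity) (by linarith)
    have h5 : 0 ≤ (x - S / 2) * (x + S / 2) := mul_nonneg (by linarith) (by linarith)
    have e : (U + 1) * (V + 1) = U * V + S + 1 := by rw [hSd]; ring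
    rw [e]
    nlinarith
  have h6 : 0 < U * V := mul_pos hU hV
  have h7 : (U * V * (x + 1) ^ 2) ^ 2 ≤ ((U + 1) * (V + 1) * x ^ 2) ^ 2 :=
    pow_le_pow_left₀ (by positivity) h1 2
  have h8 : 4 * x ^ 3 * (x + 1) ^ 4 ≤ (U * V) ^ 2 * (x + 1) ^ 4 :=
    mul_le_mul_of_nonneg_right h (by positivity)
  have h9 : 4 * x ^ 3 * (x + 1) ^ 4 ≤ ((U + 1) * (V + 1)) ^ 2 * x ^ 4 := by
    refine h8.trans ?_
    calc (U * V) ^ 2 * (x + 1) ^ 4 = (U * V * (x + 1) ^ 2) ^ 2 := by ring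
      _ ≤ _ := h7
      _ = _ := by ring
  have h10 : 4 * (x + 1) ^ 3 * x ^ 4 ≤ ((U + 1) * (V + 1)) ^ 2 * x ^ 4 := by
    refine le_trans ?_ h9
    have : 0 ≤ 4 * (x + 1) ^ 3 * x ^ 3 := by positivity
    nlinarith
  exact le_of_mul_le_mul_right h10 (by positivity)

theorem cond_all {μ l1 l2 : ℕ} (h12 : l1 + l2 ≤ 2 * μ)
    (h : 4 * ((μ : ℝ) + 2) ^ 3 ≤ (((l1 : ℝ) + 2) * (l2 + 1)) ^ 2) :
    ∀ i : ℕ, 4 * ((μ : ℝ) + 2 + i) ^ 3 ≤ (((l1 : ℝ) + 2 + i) * (l2 + 1 + i)) ^ 2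
  | 0 => by
    rw [Nat.cast_zero, add_zero, add_zero, add_zero]
    exact h
  | i + 1 => by
    have h12' : (l1 : ℝ) + l2 ≤ 2 * μ := by exact_mod_cast h12
    have h0 : (0 : ℝ) ≤ μ := Nat.cast_nonneg _
    have h1 : (0 : ℝ) ≤ l1 := Nat.cast_nonneg _
    have h2 : (0 : ℝ) ≤ l2 := Nat.cast_nonneg _
    have h3 : (0 : ℝ) ≤ i := Nat.cast_nonneg _
    have := grow (x := (μ : ℝ) + 2 + i) (U := (l1 : ℝ) + 2 + i) (V := (l2 : ℝ) + 1 + i)
      (by linarith) (by linarith) (by linarith) (by linarith) (cond_all h12 h i)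
    push_cast
    rw [← add_assoc, ← add_assoc, ← add_assoc]
    exact this

/-- the cost decreases -/
theorem cst_succ {μ l1 l2 : ℕ} (h12 : l1 + l2 ≤ 2 * μ)
    (h : 4 * ((μ : ℝ) + 2) ^ 3 ≤ (((l1 : ℝ) + 2) * (l2 + 1)) ^ 2) (i : ℕ) :
    cst μ l1 l2 (i + 1) ≤ cst μ l1 l2 i := by
  have hc := cond_all h12 h i
  have h0 : (0 : ℝ) ≤ μ := Nat.cast_nonneg _
  have h1 : (0 : ℝ) ≤ l1 := Nat.cast_nonneg _
  have h2 : (0 : ℝ) ≤ l2 := Nat.cast_nonneg _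
  have h3 : (0 : ℝ) ≤ i := Nat.cast_nonneg _
  have e1 : ((μ + (i + 1) + 1).factorial : ℝ) = ((μ : ℝ) + i + 2) * ((μ + i + 1).factorial : ℝ) := by
    rw [show μ + (i + 1) + 1 = (μ + i + 1) + 1 by ring, Nat.factorial_succ]
    push_cast
    ring
  have e2 : ((2 * (μ + (i + 1))).factorial : ℝ) = (2 * ((μ : ℝ) + i) + 2) * (2 * ((μ : ℝ) + i) + 1) *
      ((2 * (μ + i)).factorial : ℝ) := by
    rw [show 2 * (μ + (i + 1)) = (2 * (μ + i) + 1) + 1 by ring, Nat.factorial_succ,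
      Nat.factorial_succ]
    push_cast
    ring
  have e3 : ((l1 + (i + 1) + 1).factorial : ℝ) = ((l1 : ℝ) + i + 2) * ((l1 + i + 1).factorial : ℝ) := by
    rw [show l1 + (i + 1) + 1 = (l1 + i + 1) + 1 by ring, Nat.factorial_succ]
    push_cast
    ring
  have e4 : ((l2 + (i + 1)).factorial : ℝ) = ((l2 : ℝ) + i + 1) * ((l2 + i).factorial : ℝ) := by
    rw [show l2 + (i + 1) = (l2 + i) + 1 by ring, Nat.factorial_succ]
    push_cast
    ring
  have f3 : (0 : ℝ) < ((l1 + i + 1).factorial : ℝ) := by exact_mod_cast Nat.factorial_pos _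
  have f4 : (0 : ℝ) < ((l2 + i).factorial : ℝ) := by exact_mod_cast Nat.factorial_pos _
  have hU : (0 : ℝ) < (l1 : ℝ) + i + 2 := by linarith
  have hV : (0 : ℝ) < (l2 : ℝ) + i + 1 := by linarith
  have e5 : cst μ l1 l2 (i + 1) = cst μ l1 l2 i *
      ((((μ : ℝ) + i + 2) * ((2 * ((μ : ℝ) + i) + 2) * (2 * ((μ : ℝ) + i) + 1))) /
        (((l1 : ℝ) + i + 2) * ((l2 : ℝ) + i + 1)) ^ 2) := by
    unfold cst
    rw [e1, e2, e3, e4]
    field_simp
  rw [e5]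
  refine mul_le_of_le_one_right (cst_nonneg _ _ _ _) ?_
  rw [div_le_one (by positivity)]
  have h4 : ((μ : ℝ) + i + 2) * ((2 * ((μ : ℝ) + i) + 2) * (2 * ((μ : ℝ) + i) + 1)) ≤
      4 * ((μ : ℝ) + 2 + i) ^ 3 := by
    obtain ⟨y, hy⟩ : ∃ y : ℝ, y = (μ : ℝ) + i := ⟨_, rfl⟩
    have hy0 : 0 ≤ y := by rw [hy]; linarith
    rw [show (μ : ℝ) + 2 + i = y + 2 by rw [hy]; ring, ← hy]
    nlinarith [mul_nonneg hy0 hy0]
  refine h4.trans (hc.trans (le_of_eq ?_))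
  ring

theorem cst_le {μ l1 l2 : ℕ} (h12 : l1 + l2 ≤ 2 * μ)
    (h : 4 * ((μ : ℝ) + 2) ^ 3 ≤ (((l1 : ℝ) + 2) * (l2 + 1)) ^ 2) :
    ∀ i : ℕ, cst μ l1 l2 i ≤ cst μ l1 l2 0
  | 0 => le_rfl
  | i + 1 => (cst_succ h12 h i).trans (cst_le h12 h i)

/-- the shapes of the list `R`, shifted by `i` -/
def Rar (R : Finset (ℕ × ℕ)) (i M : ℕ) (B : Finset ℕ) : Prop :=
  ∃ l ∈ R, Top M (l.1 + i) B ∧ Top (M - 1) (l.2 + i) (B.erase (M - 1 + (l.1 + i)))

instance (R : Finset (ℕ × ℕ)) (i M : ℕ) : DecidablePred (Rar R i M) := fun B => by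
  unfold Rar; infer_instance

/-- the list is admissible at the base `μ` -/
def Adm (μ : ℕ) (R : Finset (ℕ × ℕ)) : Prop :=
  ∀ l ∈ R, l.1 + l.2 ≤ 2 * μ ∧ 2 ≤ l.1 + l.2 ∧
    4 * (μ + 2) ^ 3 ≤ ((l.1 + 2) * (l.2 + 1)) ^ 2

instance (μ : ℕ) (R : Finset (ℕ × ℕ)) : Decidable (Adm μ R) := by unfold Adm; infer_instance

/-- **The cost of the rare shapes, uniformly in `i`.** -/
theorem rare_mass {μ : ℕ} {R : Finset (ℕ × ℕ)} (hR : Adm μ R) {i M : ℕ} (hM : 2 * (μ + i) < M)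
    (hM2 : 2 ≤ M) :
    ((μ + i + 1).factorial : ℝ) * ∑ B ∈ (Lv M (2 * (μ + i))).filter (Rar R i M),
      ((2 * (μ + i)).factorial : ℝ) * ex B ^ 2 ≤ ∑ l ∈ R, cst μ l.1 l.2 0 := by
  have h1 : ∑ B ∈ (Lv M (2 * (μ + i))).filter (Rar R i M), ((2 * (μ + i)).factorial : ℝ) * ex B ^ 2 ≤
      ∑ l ∈ R, ∑ B ∈ (Lv M (2 * (μ + i))).filter (fun B => Top M (l.1 + i) B ∧
        Top (M - 1) (l.2 + i) (B.erase (M - 1 + (l.1 + i)))),
          ((2 * (μ + i)).factorial : ℝ) * ex B ^ 2 := by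
    rw [sum_filter (s := Lv M (2 * (μ + i)))]
    have e : ∀ l : ℕ × ℕ, ∑ B ∈ (Lv M (2 * (μ + i))).filter (fun B => Top M (l.1 + i) B ∧
        Top (M - 1) (l.2 + i) (B.erase (M - 1 + (l.1 + i)))),
          ((2 * (μ + i)).factorial : ℝ) * ex B ^ 2 =
        ∑ B ∈ Lv M (2 * (μ + i)), if Top M (l.1 + i) B ∧
        Top (M - 1) (l.2 + i) (B.erase (M - 1 + (l.1 + i))) then
          ((2 * (μ + i)).factorial : ℝ) * ex B ^ 2 else 0 := fun l => by rw [sum_filter]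
    refine le_trans ?_ (le_of_eq (sum_congr rfl fun l _ => (e l).symm))
    rw [sum_comm]
    refine sum_le_sum fun B _ => ?_
    split_ifs with h
    · obtain ⟨l, hl, h2⟩ := h
      refine le_trans ?_ (single_le_sum (f := fun l : ℕ × ℕ => if Top M (l.1 + i) B ∧
        Top (M - 1) (l.2 + i) (B.erase (M - 1 + (l.1 + i))) then
          ((2 * (μ + i)).factorial : ℝ) * ex B ^ 2 else 0) (fun l _ => by
            split_ifs <;> positivity) hl)
      rw [if_pos h2]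
    · exact sum_nonneg fun l _ => by split_ifs <;> positivity
  have h2 : ∀ l ∈ R, ((μ + i + 1).factorial : ℝ) *
      ∑ B ∈ (Lv M (2 * (μ + i))).filter (fun B => Top M (l.1 + i) B ∧
        Top (M - 1) (l.2 + i) (B.erase (M - 1 + (l.1 + i)))),
          ((2 * (μ + i)).factorial : ℝ) * ex B ^ 2 ≤ cst μ l.1 l.2 0 := by
    intro l hl
    obtain ⟨a1, a2, a3⟩ := hR l hl
    have a3' : 4 * ((μ : ℝ) + 2) ^ 3 ≤ (((l.1 : ℝ) + 2) * (l.2 + 1)) ^ 2 := by exact_mod_cast a3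
    refine le_trans ?_ (cst_le a1 a3' i)
    have h3 := wt_Top2_sum (M := M) (k := 2 * (μ + i)) (L1 := l.1 + i) (L2 := l.2 + i) hM hM2
      (by omega) (by omega)
    unfold cst
    refine mul_le_mul_of_nonneg_left (h3.trans (le_of_eq ?_)) (by positivity)
    rw [show 2 * (μ + i) - (l.1 + i) - (l.2 + i) = 2 * μ - l.1 - l.2 by omega]
    have e : ((l.1 + i : ℕ) : ℝ) - ((l.2 + i : ℕ) : ℝ) + 1 = (l.1 : ℝ) - l.2 + 1 := by
      push_cast
      ring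
    rw [e]
  calc _ ≤ ((μ + i + 1).factorial : ℝ) * ∑ l ∈ R,
        ∑ B ∈ (Lv M (2 * (μ + i))).filter (fun B => Top M (l.1 + i) B ∧
        Top (M - 1) (l.2 + i) (B.erase (M - 1 + (l.1 + i)))),
          ((2 * (μ + i)).factorial : ℝ) * ex B ^ 2 :=
        mul_le_mul_of_nonneg_left h1 (by positivity)
    _ ≤ _ := by
        rw [mul_sum]
        exact sum_le_sum h2

/-- the class with the first two rows `l.1 + i`, `l.2 + i` -/
def Cl2 (l : ℕ × ℕ) (i M : ℕ) (B : Finset ℕ) : Prop :=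
  Top M (l.1 + i) B ∧ Top (M - 1) (l.2 + i) (B.erase (M - 1 + (l.1 + i)))

instance (l : ℕ × ℕ) (i M : ℕ) : DecidablePred (Cl2 l i M) := fun B => by
  unfold Cl2; infer_instance

/-- the mass of one class, uniformly in `i` -/
theorem cl2_mass {μ : ℕ} {R : Finset (ℕ × ℕ)} (hR : Adm μ R) {l : ℕ × ℕ} (hl : l ∈ R) {i M : ℕ}
    (hM : 2 * (μ + i) < M) (hM2 : 2 ≤ M) :
    ((μ + i + 1).factorial : ℝ) * ∑ B ∈ (Lv M (2 * (μ + i))).filter (Cl2 l i M),
      ((2 * (μ + i)).factorial : ℝ) * ex B ^ 2 ≤ cst μ l.1 l.2 0 := by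
  obtain ⟨a1, a2, a3⟩ := hR l hl
  have a3' : 4 * ((μ : ℝ) + 2) ^ 3 ≤ (((l.1 : ℝ) + 2) * (l.2 + 1)) ^ 2 := by exact_mod_cast a3
  refine le_trans ?_ (cst_le a1 a3' i)
  have h3 := wt_Top2_sum (M := M) (k := 2 * (μ + i)) (L1 := l.1 + i) (L2 := l.2 + i) hM hM2
    (by omega) (by omega)
  unfold cst
  refine mul_le_mul_of_nonneg_left (h3.trans (le_of_eq ?_)) (by positivity)
  rw [show 2 * (μ + i) - (l.1 + i) - (l.2 + i) = 2 * μ - l.1 - l.2 by omega]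
  have e : ((l.1 + i : ℕ) : ℝ) - ((l.2 + i : ℕ) : ℝ) + 1 = (l.1 : ℝ) - l.2 + 1 := by
    push_cast
    ring
  rw [e]

/-- **The loss of an override on the rare shapes**, one bound per class -/
theorem loss_rare {μ : ℕ} {R : Finset (ℕ × ℕ)} (hR : Adm μ R) {i M m : ℕ} (hM : 2 * (μ + i) < M)
    (hM2 : 2 ≤ M) {a b : Finset ℕ → ℝ} (K : ℕ × ℕ → ℝ) (hK : ∀ l ∈ R, 0 ≤ K l)
    (h1 : ∀ B ∈ Lv M (2 * (μ + i)), ¬ Rar R i M B → b B = a B)
    (h2 : ∀ l ∈ R, ∀ B ∈ Lv M (2 * (μ + i)), Cl2 l i M B → |b B - a B| ≤ K l) :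
    loss M m (2 * (μ + i)) a b ≤
      (m.factorial : ℝ) / ((μ + i + 1).factorial : ℝ) * ∑ l ∈ R, K l * cst μ l.1 l.2 0 := by
  have f0 : (0 : ℝ) < ((μ + i + 1).factorial : ℝ) := by exact_mod_cast Nat.factorial_pos _
  unfold loss
  have h3 : ∑ B ∈ Lv M (2 * (μ + i)), |b B - a B| * (((2 * (μ + i)).factorial : ℝ) * ex B ^ 2) ≤
      ∑ l ∈ R, K l * ∑ B ∈ (Lv M (2 * (μ + i))).filter (Cl2 l i M),
        ((2 * (μ + i)).factorial : ℝ) * ex B ^ 2 := by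
    have e : ∀ l : ℕ × ℕ, K l * ∑ B ∈ (Lv M (2 * (μ + i))).filter (Cl2 l i M),
        ((2 * (μ + i)).factorial : ℝ) * ex B ^ 2 =
        ∑ B ∈ Lv M (2 * (μ + i)), if Cl2 l i M B then
          K l * (((2 * (μ + i)).factorial : ℝ) * ex B ^ 2) else 0 := fun l => by
      rw [sum_filter, mul_sum]
      exact sum_congr rfl fun B _ => by split_ifs <;> ring
    refine le_trans ?_ (le_of_eq (sum_congr rfl fun l _ => (e l).symm))
    rw [sum_comm]
    refine sum_le_sum fun B hB => ?_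
    by_cases h : Rar R i M B
    · obtain ⟨l, hl, h4⟩ := h
      refine le_trans ?_ (single_le_sum (f := fun l : ℕ × ℕ => if Cl2 l i M B then
          K l * (((2 * (μ + i)).factorial : ℝ) * ex B ^ 2) else 0) (fun l hl => by
            have := hK l hl
            split_ifs <;> positivity) hl)
      rw [if_pos (show Cl2 l i M B from h4)]
      exact mul_le_mul_of_nonneg_right (h2 l hl B hB h4) (by positivity)
    · rw [h1 B hB h, sub_self, abs_zero, zero_mul]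
      exact sum_nonneg fun l hl => by
        have := hK l hl
        split_ifs <;> positivity
  calc _ ≤ (m.factorial : ℝ) * ∑ l ∈ R, K l * ∑ B ∈ (Lv M (2 * (μ + i))).filter (Cl2 l i M),
        ((2 * (μ + i)).factorial : ℝ) * ex B ^ 2 := mul_le_mul_of_nonneg_left h3 (by positivity)
    _ = (m.factorial : ℝ) / ((μ + i + 1).factorial : ℝ) * ∑ l ∈ R, K l *
        (((μ + i + 1).factorial : ℝ) * ∑ B ∈ (Lv M (2 * (μ + i))).filter (Cl2 l i M),
          ((2 * (μ + i)).factorial : ℝ) * ex B ^ 2) := by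
        rw [mul_sum, mul_sum]
        refine sum_congr rfl fun l _ => ?_
        field_simp
    _ ≤ _ := by
        refine mul_le_mul_of_nonneg_left (sum_le_sum fun l hl => ?_) (by positivity)
        exact mul_le_mul_of_nonneg_left (cl2_mass hR hl hM hM2) (hK l hl)

/-- the same for a function cut to `0` on the rare shapes (helper47's `rloss` unfolded) -/
theorem rloss_rare {μ : ℕ} {R : Finset (ℕ × ℕ)} (hR : Adm μ R) {i M m : ℕ}
    (hM : 2 * (μ + i) < M) (hM2 : 2 ≤ M) {F : Finset ℕ → ℝ} (K : ℕ × ℕ → ℝ)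
    (hK : ∀ l ∈ R, 0 ≤ K l)
    (h2 : ∀ l ∈ R, ∀ B ∈ Lv M (2 * (μ + i)), Cl2 l i M B → |F B| ≤ K l) :
    (m.factorial : ℝ) * ∑ B ∈ (Lv M (2 * (μ + i))).filter (Rar R i M),
      |F B| * (((2 * (μ + i)).factorial : ℝ) * ex B ^ 2) ≤
      (m.factorial : ℝ) / ((μ + i + 1).factorial : ℝ) * ∑ l ∈ R, K l * cst μ l.1 l.2 0 := by
  have h := loss_rare (m := m) hR hM hM2 (a := F) (b := fun B => if Rar R i M B then 0 else F B)
    K hK (fun B _ h => if_neg h) (fun l hl B hB h => by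
      rw [if_pos (show Rar R i M B from ⟨l, hl, h⟩), zero_sub, abs_neg]
      exact h2 l hl B hB h)
  refine le_trans (le_of_eq ?_) h
  unfold loss
  congr 1
  rw [sum_filter]
  refine sum_congr rfl fun B _ => ?_
  by_cases h' : Rar R i M B
  · simp only [if_pos h', zero_sub, abs_neg]
  · simp only [if_neg h', sub_self, abs_zero, zero_mul]

end Pool.JM.Rare
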