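import Pool.Agent.Work.MP_46fa68_27.ProdBG
import Pool.Agent.Work.MP_46fa68_27.RareM

/-!
# MP_46fa68_co, uniform range: assembly of the product form (helper27)

`t = m - 1`, `N = 2 t` boxes.  `c = W + HI (wall t+1, lifts t-1)`, `d = HI (wall t, lifts t)`,
`v = HI (wall t-1, lifts t+1)`.  Off the rare shapes `|d| ≤ c`, `|v| ≤ c1`; on the rare shapes everything is
bounded by `Kb`.  Conclusion: the product bound for families of size `(t+1)!`.
-/

set_option autoImplicit false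

open Finset Equiv

namespace Pool.TW.H27

open Pool.JM Pool.JM.Rare Pool.OS Pool.OB Pool.TW

theorem kl_neg (t Q : ℕ) (v : ℕ → ℕ → ℝ) (τ : ℝ) (j : ℤ) (p : ℕ) :
    kl t Q (fun q p => -v q p) (-τ) j p = -kl t Q v τ j p := by
  unfold kl
  rw [neg_add, ← sum_neg_distrib]
  congr 1
  · refine sum_congr rfl fun q _ => ?_
    split_ifs
    · rw [← sum_neg_distrib]
      exact sum_congr rfl fun a _ => by ring
    · rw [neg_zero]
  · ring

theorem HI_neg (K m t Q : ℕ) (v : ℕ → ℕ → ℝ) (τ : ℝ) (B : Finset ℕ) :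
    HI K m t Q (fun q p => -v q p) (-τ) B = -HI K m t Q v τ B := by
  unfold HI HIx
  rw [← sum_neg_distrib]
  refine sum_congr rfl fun x _ => ?_
  rw [← tsum_neg]
  refine tsum_congr fun p => ?_
  rw [kl_neg]
  ring

theorem sv_neg (m n : ℕ) (v : ℕ → ℝ) : sv m n (fun p => -v p) = -sv m n v := by
  unfold sv
  rw [← sum_neg_distrib]
  exact sum_congr rfl fun p _ => by ring

/-- **The uniform range, one `t`.** -/
theorem prodOne_of_cd {t μ i p1 Qc Qd Qv : ℕ} (hμ : t = μ + i) (ht : 3 ≤ t)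
    (hQc : 2 ≤ Qc) (hQd : 2 ≤ Qd) (hQv : 2 ≤ Qv)
    (vc vd vv : ℕ → ℕ → ℝ) (τc τd τv W c1 Kb η q : ℝ) (hW : 0 ≤ W) (hc1 : 0 ≤ c1)
    (hvc : ∀ q p, p1 ≤ p → vc q p = 0) (hvd : ∀ q p, p1 ≤ p → vd q p = 0)
    (hvv : ∀ q p, p1 ≤ p → vv q p = 0)
    (h0c : ∑ p ∈ range p1, vc 0 p * r1 (t + 1) p = 0)
    (h0d : ∑ p ∈ range p1, vd 0 p * r1 t p = 0)
    (h0v : ∑ p ∈ range p1, vv 0 p * r1 (t - 1) p = 0)
    (sc : sv (t + 1) p1 (vc 1) = 0) (sd : sv t p1 (vd 1) = 1)
    (sv' : sv (t - 1) p1 (vv 1) = 1)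
    {R : Finset (ℕ × ℕ)} (hR : Adm μ R) (hKb : 0 ≤ Kb) {K₁ : ℕ}
    (H : ∀ K, K₁ ≤ K → ∀ B ∈ Lv K (2 * t), ¬ Rar R i K B →
      |HI K t t Qd vd τd B| ≤ W + HI K (t + 1) (t - 1) Qc vc τc B ∧
      |HI K (t - 1) (t + 1) Qv vv τv B| ≤ c1)
    (HR : ∀ K, K₁ ≤ K → ∀ B ∈ Lv K (2 * t), Rar R i K B →
      |W + HI K (t + 1) (t - 1) Qc vc τc B| ≤ Kb ∧ |HI K t t Qd vd τd B| ≤ Kb ∧
      |HI K (t - 1) (t + 1) Qv vv τv B| ≤ Kb)
    (hη : Kb * ∑ l ∈ R, cst μ l.1 l.2 0 ≤ η) (hq : 0 < q) (hq1 : q < 1 - η) :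
    EG.ProdOne (2 * t + 1) t
      ((W + η) * (W + η / t) * t / ((1 - η) ^ 2 * ((t : ℝ) + 1) ^ 2) +
        t * ((c1 / q) ^ 2 / ((t : ℝ) * (t + 1)) ^ 2)) := by
  obtain ⟨u, rfl⟩ : ∃ u, t = u + 1 := ⟨t - 1, by omega⟩
  rw [Nat.add_sub_cancel] at *
  have hS0 : 0 ≤ ∑ l ∈ R, cst μ l.1 l.2 0 := sum_nonneg fun l _ => cst_nonneg _ _ _ _
  have hη0 : 0 ≤ η := (mul_nonneg hKb hS0).trans hη
  have eN : 2 * (u + 1) = 2 * u + 1 + 1 := by ring
  have eN2 : 2 * (μ + i) = 2 * u + 1 + 1 := by omega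
  -- the loss on the rare shapes
  have L : ∀ (K m' : ℕ) (F : Finset ℕ → ℝ), 2 * u + 1 + 1 < K → m' ≤ u + 2 →
      (∀ B ∈ Lv K (2 * u + 1 + 1), Rar R i K B → |F B| ≤ Kb) →
      loss K m' (2 * u + 1 + 1) F (fun B => if Rar R i K B then 0 else F B) ≤ η := by
    intro K m' F hK hm' hF
    have h1 := loss_rare (m := m') hR (i := i) (M := K) (by omega) (by omega)
      (a := F) (b := fun B => if Rar R i K B then 0 else F B) (fun _ => Kb) (fun _ _ => hKb)
      (fun B _ h => if_neg h) (fun l hl B hB h => by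
        have h2 : Rar R i K B := ⟨l, hl, h⟩
        rw [if_pos h2, zero_sub, abs_neg]
        exact hF B (by rw [← eN2]; exact hB) h2)
    rw [eN2] at h1
    refine h1.trans ?_
    have f1 : (0 : ℝ) < ((μ + i + 1).factorial : ℝ) := by exact_mod_cast Nat.factorial_pos _
    have f2 : (m'.factorial : ℝ) ≤ ((μ + i + 1).factorial : ℝ) := by
      exact_mod_cast Nat.factorial_le (by omega)
    have h3 : (m'.factorial : ℝ) / ((μ + i + 1).factorial : ℝ) ≤ 1 := by
      rw [div_le_one f1]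
      exact f2
    rw [← mul_sum]
    refine le_trans ?_ hη
    refine mul_le_of_le_one_left (mul_nonneg hKb hS0) h3
  have hP : ∀ δ : ℝ, 0 < δ → PCert (2 * u + 1) (u + 1) W (-η) 0 (1 - η) W (-η) δ := by
    have h := PCert_of_sources (n := 2 * u + 1) (k := u + 1) (u := u) (p1 := p1) (Qa := Qc)
      (Qb := Qd) (Qc := Qc) (by ring) (by omega) hQc hQd hQc vc (fun q p => -vd q p) vc τc (-τd) τc
      W 0 W η η η hvc (fun q p h => by rw [hvd q p h, neg_zero]) hvc h0c
      (by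
        have e : ∑ p ∈ range p1, -vd 0 p * r1 (u + 1) p = -∑ p ∈ range p1, vd 0 p * r1 (u + 1) p := by
          rw [← sum_neg_distrib]
          exact sum_congr rfl fun p _ => by ring
        rw [e, h0d, neg_zero]) h0c (K₁ := max K₁ (2 * u + 3)) (fun K hK => by
        have hK1 : K₁ ≤ K := (le_max_left _ _).trans hK
        have hK2 : 2 * u + 3 ≤ K := (le_max_right _ _).trans hK
        refine ⟨fun B => if Rar R i K B then 0 else W + HI K (u + 1 + 1) u Qc vc τc B,
          fun B => if Rar R i K B then 0 else 0 + HI K (u + 1) (u + 1) Qd (fun q p => -vd q p) (-τd) B,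
          fun B => if Rar R i K B then 0 else W + HI K (u + 1 + 1) u Qc vc τc B, ?_, ?_, ?_, ?_⟩
        · intro B hB
          by_cases h : Rar R i K B
          · simp only [if_pos h]
            norm_num
          · simp only [if_neg h]
            rw [← eN] at hB
            have h1 := (H K hK1 B hB h).1
            have h2 := (abs_nonneg _).trans h1
            refine ⟨h2, h2, ?_⟩
            rw [HI_neg, zero_add, neg_sq, ← sq_abs, ← sq]
            exact pow_le_pow_left₀ (abs_nonneg _) h1 2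
        · exact L K _ _ (by omega) (by omega) fun B hB h => (HR K hK1 B (by rw [eN]; exact hB) h).1
        · refine L K _ _ (by omega) (by omega) fun B hB h => ?_
          rw [zero_add, HI_neg, abs_neg]
          exact (HR K hK1 B (by rw [eN]; exact hB) h).2.1
        · exact L K _ _ (by omega) (by omega) fun B hB h => (HR K hK1 B (by rw [eN]; exact hB) h).1)
    intro δ hδ
    have h' := h δ hδ
    rw [sc, sv_neg, sd, neg_neg, neg_zero, zero_sub] at h'
    exact h'
  have hq1' : 0 < 1 - η := hq.trans hq1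
  have hC : CB (2 * u + 1 + 1) (u + 1 + 1)
      ((c1 / q) ^ 2 / (((u + 1 : ℕ) : ℝ) * (((u + 1 : ℕ) : ℝ) + 1)) ^ 2 *
        (((u + 1 + 1).factorial : ℕ) : ℝ) ^ 2) := by
    have h := CB_of_source (n := 2 * u + 1) (m := u) (u := u + 1 + 1) (p1 := p1) (Q := Qv)
      (by ring) (by omega) (by omega) hQv (fun q p => -vv q p) (-τv) c1 η q
      (fun q p h => by rw [hvv q p h, neg_zero])
      (by
        have e : ∑ p ∈ range p1, -vv 0 p * r1 u p = -∑ p ∈ range p1, vv 0 p * r1 u p := by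
          rw [← sum_neg_distrib]
          exact sum_congr rfl fun p _ => by ring
        rw [e, h0v, neg_zero]) hq (by rw [sv_neg, sv', neg_neg]; exact hq1)
      (K₁ := max K₁ (2 * u + 3)) (fun K hK => by
        have hK1 : K₁ ≤ K := (le_max_left _ _).trans hK
        have hK2 : 2 * u + 3 ≤ K := (le_max_right _ _).trans hK
        refine ⟨fun B => if Rar R i K B then 0 else
          0 + HI K u (u + 1 + 1) Qv (fun q p => -vv q p) (-τv) B, ?_, ?_⟩
        · intro B hB
          by_cases h : Rar R i K B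
          · simp only [if_pos h]
            rw [abs_zero]
            exact hc1
          · simp only [if_neg h]
            rw [zero_add, HI_neg, abs_neg]
            exact (H K hK1 B (by rw [eN]; exact hB) h).2
        · refine L K _ _ (by omega) (by omega) fun B hB h => ?_
          rw [zero_add, HI_neg, abs_neg]
          exact (HR K hK1 B (by rw [eN]; exact hB) h).2.2)
    have e1 : (((u + 1 + 1).factorial : ℕ) : ℝ) =
        (((u + 1 : ℕ) : ℝ) * (((u + 1 : ℕ) : ℝ) + 1)) * (u.factorial : ℝ) := by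
      rw [Nat.factorial_succ, Nat.factorial_succ]
      push_cast
      ring
    have e2 : (c1 / q) ^ 2 / (((u + 1 : ℕ) : ℝ) * (((u + 1 : ℕ) : ℝ) + 1)) ^ 2 *
        (((u + 1 + 1).factorial : ℕ) : ℝ) ^ 2 = (c1 / q * u.factorial) ^ 2 := by
      rw [e1]
      field_simp
    rw [e2]
    exact h
  have key := prodOne_of_PCert (n := 2 * u + 1) (k := u + 1) (t := u + 1) (η := η) (σ := η)
    (by ring) (by omega) (by omega) hW hW hq1' hη0 hη0 le_rfl (by linarith) le_rfl (by linarith)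
    hP hC
  rw [show 2 * u + 1 + 1 + 1 = 2 * (u + 1) + 1 by ring] at key
  exact key

end Pool.TW.H27
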