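import Pool.Agent.Work.MP_46fa68_27.Shift
import Pool.Agent.Work.MP_46fa68_47.Src2

/-!
# MP_46fa68_co, uniform range: the three lists and their exactness (helper27)
-/

set_option autoImplicit false

open Finset

namespace Pool.EGL

open Pool.OB Pool.NV

/-- `c = 1.22 + ..`, wall `m1 + 1`, lifts `m1 - 1` -/
def cfC : Cf := ⟨[([], []), ([], []), ([117], [-117, -234]), ([-75], [])], [-75]⟩

/-- `d`, wall `m1`, lifts `m1` -/
def cfD : Cf := ⟨[([-36], [36, 0, -36]), ([291], [-191, -191]), ([236], [-129])], [44]⟩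

/-- `v`, wall `m1 - 1`, lifts `m1 + 1` -/
def cfV : Cf := ⟨[([21], [79]), ([261], [])], [293]⟩

theorem C_zero (m p : ℕ) : vC cfC m 100 0 p = 0 := by
  unfold vC cfC
  simp [pev]

theorem C_one (m p : ℕ) : vC cfC m 100 1 p = 0 := by
  unfold vC cfC
  simp [pev]

theorem C_sv {t : ℕ} (ht : 1 ≤ t) : sv (t + 1) 2 (vC cfC t 100 2) = 0 := by
  have h0 : (0 : ℝ) < t := by exact_mod_cast ht
  have hf : ((t + 1).factorial : ℝ) ≠ 0 := by exact_mod_cast Nat.factorial_ne_zero _
  have e : ((t + 1 + 1).factorial : ℝ) = ((t : ℝ) + 2) * (t + 1).factorial := by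
    rw [Nat.factorial_succ]
    push_cast
    ring
  unfold sv
  rw [sum_range_succ, sum_range_one, e, Nat.add_zero]
  unfold vC cfC
  simp [pev]
  field_simp
  ring

theorem D_ex {t : ℕ} (ht : 2 ≤ t) : ∑ p ∈ range 2, vC cfD t 100 0 p * r1 t p = 0 := by
  have h0 : (2 : ℝ) ≤ t := by exact_mod_cast ht
  have hf : (t.factorial : ℝ) ≠ 0 := by exact_mod_cast Nat.factorial_ne_zero _
  have e : ((t + 1).factorial : ℝ) = ((t : ℝ) + 1) * t.factorial := by
    rw [Nat.factorial_succ]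
    push_cast
    ring
  have e1 : ((t - 1 : ℕ) : ℝ) = (t : ℝ) - 1 := by
    rw [Nat.cast_sub (by omega)]
    push_cast
    ring
  have h1 : (t : ℝ) - 1 ≠ 0 := by
    intro h
    linarith
  have h2 : (t : ℝ) + 1 ≠ 0 := by positivity
  have h3 : (t : ℝ) ≠ 0 := by positivity
  unfold r1
  rw [sum_range_succ, sum_range_one, e, e1, Nat.add_zero]
  unfold vC cfD
  simp [pev]
  field_simp
  ring

theorem D_sv {t : ℕ} (ht : 1 ≤ t) : sv t 2 (vC cfD t 100 1) = 1 := by
  have h0 : (0 : ℝ) < t := by exact_mod_cast ht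
  have hf : (t.factorial : ℝ) ≠ 0 := by exact_mod_cast Nat.factorial_ne_zero _
  have e : ((t + 1).factorial : ℝ) = ((t : ℝ) + 1) * t.factorial := by
    rw [Nat.factorial_succ]
    push_cast
    ring
  unfold sv
  rw [sum_range_succ, sum_range_one, e, Nat.add_zero]
  unfold vC cfD
  simp [pev]
  field_simp
  ring

theorem V_sv {t : ℕ} (ht : 1 ≤ t) : sv (t - 1) 2 (vC cfV t 100 0) = 1 := by
  obtain ⟨u, rfl⟩ : ∃ u, t = u + 1 := ⟨t - 1, by omega⟩
  have hf : (u.factorial : ℝ) ≠ 0 := by exact_mod_cast Nat.factorial_ne_zero _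
  have e : ((u + 1).factorial : ℝ) = ((u : ℝ) + 1) * u.factorial := by
    rw [Nat.factorial_succ]
    push_cast
    ring
  have h2 : (u : ℝ) + 1 ≠ 0 := by positivity
  unfold sv
  rw [Nat.add_sub_cancel, sum_range_succ, sum_range_one, e, Nat.add_zero]
  unfold vC cfV
  simp [pev]
  field_simp
  ring

end Pool.EGL
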