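import Pool.Agent.Work.MP_46fa68_27.EndU
import Pool.Agent.Work.MP_46fa68_27.Lists
import Pool.Agent.Work.MP_46fa68_27.AnGap

/-!
# MP_46fa68_co, uniform range: `Holds (2 t + 1) t` from the three one-bead inequalities (helper27)
-/

set_option autoImplicit false

open Finset Equiv

namespace Pool.EGL

open Pool.JM Pool.JM.Rare Pool.OS Pool.OB Pool.TW Pool.TW.H27 Pool.EG Pool.NV

/-- off the rare layer pairs: `|d| ≤ c` -/
def MainU (t : ℕ) : Prop :=
  ∀ (k L b s : ℕ) (B : Finset ℕ), Two k L b s B → L + b + s = 2 * t →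
    ((t : ℤ) - L, (t : ℤ) + 1 - b) ∉ J26 →
    |HI (k + 2) t t 3 (vC cfD t 100) (tauC cfD t 100) B| ≤
      61 / 50 + HI (k + 2) t (t - 1) 4 (vC cfC t 100) (tauC cfC t 100) B

/-- the cross function -/
def CrossU (t : ℕ) : Prop :=
  ∀ (k L b s : ℕ) (B : Finset ℕ), Two k L b s B → L + b + s = 2 * t →
    |HI (k + 2) t (t + 1) 2 (vC cfV t 100) (tauC cfV t 100) B| ≤ 7 / 2

/-- crude bounds -/
def CrudeU (t : ℕ) : Prop :=
  ∀ (k L b s : ℕ) (B : Finset ℕ), Two k L b s B → L + b + s = 2 * t →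
    ((t : ℤ) - L, (t : ℤ) + 1 - b) ∈ J26 →
    |61 / 50 + HI (k + 2) t (t - 1) 4 (vC cfC t 100) (tauC cfC t 100) B| ≤ 1000 ∧
      |HI (k + 2) t t 3 (vC cfD t 100) (tauC cfD t 100) B| ≤ 1000

theorem prodOne_u {t : ℕ} (ht : 26 ≤ t) (H1 : MainU t) (H2 : CrossU t) (H3 : CrudeU t) :
    ProdOne (2 * t + 1) t
      ((61 / 50 + 1 / 1000) * (61 / 50 + 1 / 1000 / (t : ℝ)) * t /
          ((1 - 1 / 1000) ^ 2 * ((t : ℝ) + 1) ^ 2) +
        t * ((7 / 2 / (499 / 500)) ^ 2 / ((t : ℝ) * (t + 1)) ^ 2)) := by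
  obtain ⟨i, hi⟩ : ∃ i, t = 26 + i := ⟨t - 26, by omega⟩
  have key : ∀ K, 2 ≤ K → ∀ B ∈ Lv K (2 * t), ∃ (k L b s : ℕ), K = k + 2 ∧ Two k L b s B ∧
      L + b + s = 2 * t := by
    intro K hK B hB
    obtain ⟨k, rfl⟩ : ∃ k, K = k + 2 := ⟨K - 2, by omega⟩
    obtain ⟨L, b, s, h1, h2⟩ := exists_two hB
    exact ⟨k, L, b, s, rfl, h2, h1.symm⟩
  have eC : ∀ (K : ℕ) (B : Finset ℕ),
      HI K (t + 1) (t - 1) 3 (fun q p => vC cfC t 100 (q + 1) p) (tauC cfC t 100) B =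
        HI K t (t - 1) 4 (vC cfC t 100) (tauC cfC t 100) B := fun K B =>
    (HI_drop (C_zero t) _ B).symm
  have eV : ∀ (K : ℕ) (B : Finset ℕ),
      HI K (t - 1) (t + 1) 3 (shl (vC cfV t 100)) (tauC cfV t 100) B =
        HI K t (t + 1) 2 (vC cfV t 100) (tauC cfV t 100) B := fun K B => by
    rw [HI_shl, Nat.sub_add_cancel (by omega)]
  refine prodOne_of_cd (μ := 26) (i := i) (p1 := 2) (Qc := 3) (Qd := 3) (Qv := 3) hi (by omega)
    (by norm_num) (by norm_num) (by norm_num)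
    (fun q p => vC cfC t 100 (q + 1) p) (vC cfD t 100) (shl (vC cfV t 100))
    (tauC cfC t 100) (tauC cfD t 100) (tauC cfV t 100) (61 / 50) (7 / 2) 1000 (1 / 1000) (499 / 500)
    (by norm_num) (by norm_num) (fun q p hp => vC_two hp) (fun q p hp => vC_two hp) ?_ ?_ ?_ ?_ ?_ ?_ ?_
    adm26 (by norm_num) (K₁ := 2) ?_ ?_ ?_ (by norm_num) (by norm_num)
  · intro q p hp
    cases q with
    | zero => rfl
    | succ q => exact vC_two hp
  · exact sum_eq_zero fun p _ => by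
      rw [zero_add, C_one, zero_mul]
  · exact D_ex (by omega)
  · exact sum_eq_zero fun p _ => by
      change (0 : ℝ) * _ = 0
      rw [zero_mul]
  · exact C_sv (by omega)
  · exact D_sv (by omega)
  · exact V_sv (by omega)
  · intro K hK B hB hR
    obtain ⟨k, L, b, s, rfl, h2, h3⟩ := key K hK B hB
    rw [eC, eV]
    refine ⟨H1 k L b s B h2 h3 fun hJ => hR ?_, H2 k L b s B h2 h3⟩
    rw [← rowsOf26]
    exact (rar_layer hi J26_bd h2).2 hJ
  · intro K hK B hB hR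
    obtain ⟨k, L, b, s, rfl, h2, h3⟩ := key K hK B hB
    rw [eC, eV]
    rw [← rowsOf26] at hR
    obtain ⟨h4, h5⟩ := H3 k L b s B h2 h3 ((rar_layer hi J26_bd h2).1 hR)
    exact ⟨h4, h5, (H2 k L b s B h2 h3).trans (by norm_num)⟩
  · have := cost26
    linarith

/-- **the uniform range** -/
theorem holds_u {t : ℕ} (ht : 26 ≤ t) (H1 : MainU t) (H2 : CrossU t) (H3 : CrudeU t)
    (hK : ∀ n' t' : ℕ, 2 * t' + 3 ≤ n' → Holds n' t') : Holds (2 * t + 1) t :=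
  holds_of_prodOne ht (prodOne_u ht H1 H2 H3) hK

end Pool.EGL
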