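import Pool.Agent.Work.MP_46fa68_27.RareM
import Pool.Agent.Work.MP_46fa68_36.Theta

/-!
# MP_46fa68_co: the rare list in terms of `Two k L b s` (helper27)
-/

set_option autoImplicit false

open Finset Equiv

namespace Pool.JM.Rare

open Pool.JM

theorem top_of_two {k L b s : ℕ} {B : Finset ℕ} (h : Two k L b s B) : Top (k + 2) L B := by
  refine ⟨?_, fun y hy => ?_⟩
  · rw [show k + 2 - 1 + L = k + 1 + L by omega]
    exact h.h1
  · rw [show k + 2 - 1 + L = k + 1 + L by omega]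
    exact h.top y hy

theorem top2_of_two {k L b s : ℕ} {B : Finset ℕ} (h : Two k L b s B) :
    Top (k + 2 - 1) b (B.erase (k + 2 - 1 + L)) := by
  have e1 : k + 2 - 1 + L = k + 1 + L := by omega
  have e2 : k + 2 - 1 - 1 + b = k + b := by omega
  rw [e1]
  have hL := h.hbL
  refine ⟨?_, fun y hy => ?_⟩
  · rw [e2]
    exact mem_erase.2 ⟨by omega, h.h2⟩
  · rw [e2]
    by_cases hy2 : y = k + b
    · exact hy2.le
    · exact (h.hlt y (mem_erase.2 ⟨hy2, hy⟩)).le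

/-- **the rare shapes are the listed pairs of rows** -/
theorem rar_iff {R : Finset (ℕ × ℕ)} {i k L b s : ℕ} {B : Finset ℕ} (h : Two k L b s B) :
    Rar R i (k + 2) B ↔ ∃ l ∈ R, L = l.1 + i ∧ b = l.2 + i := by
  have h1 := top_of_two h
  have h2 := top2_of_two h
  constructor
  · rintro ⟨l, hl, h3, h4⟩
    have e := Top_unique h1 h3
    rw [← e] at h4
    exact ⟨l, hl, e, Top_unique h2 h4⟩
  · rintro ⟨l, hl, h3, h4⟩
    refine ⟨l, hl, ?_, ?_⟩
    · rw [← h3]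
      exact h1
    · rw [← h3, ← h4]
      exact h2

/-- the list of layer pairs `(j1, j2)`, `j1 = t - L`, `j2 = t + 1 - b`, as rows at the base `μ` -/
def rowsOf (μ : ℕ) (J : List (ℤ × ℤ)) : Finset (ℕ × ℕ) :=
  (J.map fun j => (((μ : ℤ) - j.1).toNat, ((μ : ℤ) + 1 - j.2).toNat)).toFinset

/-- **the rare shapes in terms of layers**, `t = μ + i` -/
theorem rar_layer {μ i t : ℕ} (ht : t = μ + i) {J : List (ℤ × ℤ)}
    (hJ : ∀ j ∈ J, j.1 ≤ μ ∧ j.2 ≤ μ + 1) {k L b s : ℕ} {B : Finset ℕ} (h : Two k L b s B) :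
    Rar (rowsOf μ J) i (k + 2) B ↔ ((t : ℤ) - L, (t : ℤ) + 1 - b) ∈ J := by
  rw [rar_iff h]
  unfold rowsOf
  constructor
  · rintro ⟨l, hl, h1, h2⟩
    obtain ⟨j, hj, rfl⟩ := List.mem_map.1 (List.mem_toFinset.1 hl)
    obtain ⟨a1, a2⟩ := hJ j hj
    simp only at h1 h2
    have e1 : (t : ℤ) - L = j.1 := by omega
    have e2 : (t : ℤ) + 1 - b = j.2 := by omega
    rw [e1, e2]
    exact hj
  · intro hj
    obtain ⟨a1, a2⟩ := hJ _ hj
    refine ⟨_, List.mem_toFinset.2 (List.mem_map.2 ⟨_, hj, rfl⟩), ?_, ?_⟩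
    · simp only at a1 ⊢
      omega
    · simp only at a2 ⊢
      omega

end Pool.JM.Rare
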