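import Pool.Agent.Work.MP_46fa68_76.EndStmt

/-!
# MP_46fa68_co: cutting a family down to the size `(n - t)!` with the same density at a cell (helper27)
-/

set_option autoImplicit false

open Finset Equiv

namespace Pool.EG

theorem cut_nat {F : ℕ} {β p : ℝ} (hβ0 : 0 ≤ β) (hp1 : p ≤ 1) (hg : 1 < (p - β) * F) :
    ∀ (d S X : ℕ), S = F + d → X ≤ S → β * S < X → (X : ℝ) < p * S →
      ∃ X' Y' : ℕ, X' ≤ X ∧ Y' ≤ S - X ∧ X' + Y' = F ∧ β * F < X' ∧ (X' : ℝ) < p * F
  | 0, S, X, hS, hX, h1, h2 => by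
    refine ⟨X, S - X, le_rfl, le_rfl, by omega, ?_, ?_⟩
    · rw [hS] at h1
      simpa using h1
    · rw [hS] at h2
      simpa using h2
  | d + 1, S, X, hS, hX, h1, h2 => by
    obtain ⟨S', rfl⟩ : ∃ S', S = S' + 1 := ⟨F + d, by omega⟩
    have hS' : S' = F + d := by omega
    have hSF : (F : ℝ) ≤ S' := by exact_mod_cast (by omega : F ≤ S')
    have hpβ : 0 ≤ p - β := by
      by_contra h
      rw [not_le] at h
      have : (p - β) * F ≤ 0 := mul_nonpos_of_nonpos_of_nonneg h.le (Nat.cast_nonneg _)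
      linarith
    push_cast at h1 h2
    have hX1 : (X : ℝ) < S' + 1 := by
      have : p * ((S' : ℝ) + 1) ≤ 1 * ((S' : ℝ) + 1) :=
        mul_le_mul_of_nonneg_right hp1 (by positivity)
      linarith
    have hX2 : X ≤ S' := by
      have : X < S' + 1 := by exact_mod_cast hX1
      omega
    by_cases hc : (X : ℝ) < p * S'
    · obtain ⟨X', Y', a1, a2, a3, a4, a5⟩ := cut_nat hβ0 hp1 hg d S' X hS' hX2 (by linarith) hc
      exact ⟨X', Y', a1, by omega, a3, a4, a5⟩
    · rw [not_lt] at hc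
      have hX0 : 1 ≤ X := by
        by_contra h
        have h' : X = 0 := by omega
        rw [h', Nat.cast_zero] at h1
        have : 0 ≤ β * ((S' : ℝ) + 1) := by positivity
        linarith
      obtain ⟨X0, rfl⟩ : ∃ X0, X = X0 + 1 := ⟨X - 1, by omega⟩
      push_cast at h1 h2 hc
      have h3 : 1 < (p - β) * S' := lt_of_lt_of_le hg (mul_le_mul_of_nonneg_left hSF hpβ)
      obtain ⟨X', Y', a1, a2, a3, a4, a5⟩ := cut_nat hβ0 hp1 hg d S' X0 hS' (by omega)
        (by linarith) (by linarith)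
      exact ⟨X', Y', by omega, by omega, a3, a4, a5⟩

/-- the product inequality for families of size exactly `(n - t)!` -/
def ProdOne (n t : ℕ) (Λ : ℝ) : Prop :=
  ∀ A : Finset (Perm (Fin n)), TInt t A → A.card = (n - t).factorial → ∀ x y : Fin n,
    ((thr A x y).card : ℝ) * ((A.card : ℝ) - ((thr A x y).card : ℝ)) ≤
      Λ * ((n - t).factorial : ℝ) ^ 2

theorem ProdOne.mono {n t : ℕ} {Λ Λ' : ℝ} (h : ProdOne n t Λ) (hΛ : Λ ≤ Λ') : ProdOne n t Λ' :=
  fun A hA hc x y => (h A hA hc x y).trans (mul_le_mul_of_nonneg_right hΛ (by positivity))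

/-- **The gap from families of size exactly `(n - t)!`.** -/
theorem gap_of_prodOne {n t : ℕ} {Λ β p : ℝ} (h : ProdOne n t Λ) (hβ0 : 0 ≤ β) (hp1 : p ≤ 1)
    (hg : 1 < (p - β) * ((n - t).factorial : ℝ)) (hβ : Λ ≤ β * (1 - β)) (hp : Λ ≤ p * (1 - p)) :
    Gap n t 1 β p := by
  intro A hA hc x y
  by_contra hcon
  push Not at hcon
  obtain ⟨h1, h2⟩ := hcon
  rw [one_mul] at hc
  have hc' : (n - t).factorial ≤ A.card := by exact_mod_cast hc
  have hsub : thr A x y ⊆ A := filter_subset _ _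
  obtain ⟨X', Y', a1, a2, a3, a4, a5⟩ := cut_nat hβ0 hp1 hg (A.card - (n - t).factorial) A.card
    (thr A x y).card (by omega) (card_le_card hsub) h1 h2
  obtain ⟨Q, hQ1, hQ2⟩ := exists_subset_card_eq a1
  have hY : Y' ≤ (A \ thr A x y).card := by
    rw [card_sdiff_of_subset hsub]
    exact a2
  obtain ⟨V, hV1, hV2⟩ := exists_subset_card_eq hY
  have hdisj : Disjoint Q V := by
    rw [Finset.disjoint_left]
    intro σ h3 h4
    exact (mem_sdiff.1 (hV1 h4)).2 (hQ1 h3)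
  have hA' : Q ∪ V ⊆ A := union_subset (hQ1.trans hsub) (hV1.trans sdiff_subset)
  have hcard : (Q ∪ V).card = (n - t).factorial := by
    rw [card_union_of_disjoint hdisj, hQ2, hV2, a3]
  have hthr : thr (Q ∪ V) x y = Q := by
    ext σ
    unfold thr
    rw [mem_filter, mem_union]
    constructor
    · rintro ⟨h3 | h3, h4⟩
      · exact h3
      · exact absurd (mem_filter.2 ⟨(mem_sdiff.1 (hV1 h3)).1, h4⟩) (mem_sdiff.1 (hV1 h3)).2
    · intro h3
      exact ⟨Or.inl h3, (mem_filter.1 (hQ1 h3)).2⟩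
  have hTI : TInt t (Q ∪ V) := fun σ hσ τ hτ => hA σ (hA' hσ) τ (hA' hτ)
  have key := h (Q ∪ V) hTI hcard x y
  rw [hthr, hQ2, hcard] at key
  obtain ⟨F, hF⟩ : ∃ F : ℝ, F = ((n - t).factorial : ℝ) := ⟨_, rfl⟩
  rw [← hF] at key a4 a5
  have hF0 : 0 < F := by rw [hF]; exact_mod_cast Nat.factorial_pos _
  -- `X' = x F`, `β < x < p`
  obtain ⟨z, hz⟩ : ∃ z : ℝ, z = (X' : ℝ) / F := ⟨_, rfl⟩
  have hX' : (X' : ℝ) = z * F := by rw [hz, div_mul_cancel₀ _ hF0.ne']
  rw [hX'] at key a4 a5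
  have z1 : β < z := lt_of_mul_lt_mul_right a4 hF0.le
  have z2 : z < p := lt_of_mul_lt_mul_right a5 hF0.le
  have k2 : z * (1 - z) ≤ Λ := by
    have e : z * F * (F - z * F) = z * (1 - z) * F ^ 2 := by ring
    rw [e] at key
    exact le_of_mul_le_mul_right key (by positivity)
  -- strict concavity
  have k3 : 0 < (z - β) * (p - z) := mul_pos (by linarith) (by linarith)
  have k4 : 0 < p - β := by linarith
  have e1 : (p - β) * (z * (1 - z)) = (p - z) * (β * (1 - β)) + (z - β) * (p * (1 - p)) +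
      (z - β) * (p - z) * (p - β) := by ring
  have k5 : (p - z) * Λ ≤ (p - z) * (β * (1 - β)) :=
    mul_le_mul_of_nonneg_left hβ (by linarith)
  have k6 : (z - β) * Λ ≤ (z - β) * (p * (1 - p)) :=
    mul_le_mul_of_nonneg_left hp (by linarith)
  have k7 : (p - β) * (z * (1 - z)) ≤ (p - β) * Λ := mul_le_mul_of_nonneg_left k2 k4.le
  have k8 : 0 < (z - β) * (p - z) * (p - β) := mul_pos k3 k4
  nlinarith

end Pool.EG
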