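import Pool.Agent.Work.MP_46fa68_27.Bridge
import Pool.Agent.Work.MP_46fa68_27.Cut
import Pool.Agent.Work.MP_46fa68_86.Unif3
import Pool.Agent.Work.MP_46fa68_63.LinkEG

/-!
# MP_46fa68_co, uniform range `t ≥ 26`: the numbers at the end (helper27)
-/

set_option autoImplicit false

open Finset Equiv

namespace Pool.EGL

open Pool.JM Pool.JM.Rare Pool.EG

/-- the fixed list of rare layer pairs -/
def J26 : List (ℤ × ℤ) :=
  [(1, 2), (0, 1), (0, 2), (0, 3), (-1, 2), (-1, 3), (-1, 4), (-2, 3), (-2, 4), (-2, 5),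
    (-3, 4), (-3, 5), (-3, 6), (-4, 5), (-4, 6), (-4, 7), (-5, 6), (-5, 7), (-5, 8),
    (-6, 7), (-6, 8), (-6, 9)]

/-- the same as rows at the base `26` -/
def R26 : Finset (ℕ × ℕ) :=
  {(25, 25), (26, 26), (26, 25), (26, 24), (27, 25), (27, 24), (27, 23), (28, 24), (28, 23), (28, 22),
    (29, 23), (29, 22), (29, 21), (30, 22), (30, 21), (30, 20), (31, 21), (31, 20), (31, 19),
    (32, 20), (32, 19), (32, 18)}

theorem J26_bd : ∀ j ∈ J26, j.1 ≤ ((26 : ℕ) : ℤ) ∧ j.2 ≤ ((26 : ℕ) : ℤ) + 1 := by decide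

theorem rowsOf26 : rowsOf 26 J26 = R26 := by decide

theorem adm26 : Adm 26 R26 := by decide

theorem cost26 : ∑ l ∈ R26, cst 26 l.1 l.2 0 ≤ 1 / 1000000 := by
  unfold R26
  repeat rw [Finset.sum_insert (by decide)]
  rw [Finset.sum_singleton]
  unfold cst
  norm_num [Nat.factorial]

/-- the product bound at the end is small enough -/
theorem lam_le {t : ℕ} (ht : 26 ≤ t) :
    (61 / 50 + 1 / 1000) * (61 / 50 + 1 / 1000 / (t : ℝ)) * t / ((1 - 1 / 1000) ^ 2 * ((t : ℝ) + 1) ^ 2) +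
        t * ((7 / 2 / (499 / 500)) ^ 2 / ((t : ℝ) * (t + 1)) ^ 2) ≤
      31 / 20 / ((t : ℝ) + 1) * (1 - 31 / 20 / ((t : ℝ) + 1)) := by
  have h26 : (26 : ℝ) ≤ t := by exact_mod_cast ht
  have h0 : (0 : ℝ) < t := by linarith
  have h1 : (0 : ℝ) < (t : ℝ) + 1 := by linarith
  have e1 : (61 / 50 + 1 / 1000) * (61 / 50 + 1 / 1000 / (t : ℝ)) * t /
      ((1 - 1 / 1000) ^ 2 * ((t : ℝ) + 1) ^ 2) + t * ((7 / 2 / (499 / 500)) ^ 2 / ((t : ℝ) * (t + 1)) ^ 2) =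
      ((61 / 50 + 1 / 1000) * (61 / 50 * t + 1 / 1000) / (1 - 1 / 1000) ^ 2 +
        (7 / 2 / (499 / 500)) ^ 2 * (1 / t)) / ((t : ℝ) + 1) ^ 2 := by
    field_simp
  have e2 : 31 / 20 / ((t : ℝ) + 1) * (1 - 31 / 20 / ((t : ℝ) + 1)) =
      (31 / 20 * (t + 1 - 31 / 20)) / ((t : ℝ) + 1) ^ 2 := by
    field_simp
  rw [e1, e2]
  refine div_le_div_of_nonneg_right ?_ (by positivity)
  have h2 : 1 / (t : ℝ) ≤ 1 / 26 := div_le_div_of_nonneg_left (by norm_num) (by norm_num) h26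
  have h3 : (7 / 2 / (499 / 500) : ℝ) ^ 2 * (1 / t) ≤ (7 / 2 / (499 / 500)) ^ 2 * (1 / 26) :=
    mul_le_mul_of_nonneg_left h2 (by norm_num)
  have h4 : (61 / 50 + 1 / 1000) * (61 / 50 * (t : ℝ) + 1 / 1000) / (1 - 1 / 1000) ^ 2 ≤
      (61 / 50 + 1 / 1000) * (61 / 50 * (t : ℝ) + 1 / 1000) * (251 / 250) := by
    rw [div_le_iff₀ (by norm_num)]
    nlinarith
  have h5 : (7 / 2 / (499 / 500) : ℝ) ^ 2 * (1 / 26) ≤ 48 / 100 := by norm_num
  linarith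

theorem gap_num {t : ℕ} (ht : 26 ≤ t) :
    1 < ((1 - 31 / 20 / ((t : ℝ) + 1)) - 31 / 20 / ((t : ℝ) + 1)) * (((2 * t + 1 - t).factorial : ℕ) : ℝ) := by
  have h26 : (26 : ℝ) ≤ t := by exact_mod_cast ht
  have h1 : (0 : ℝ) < (t : ℝ) + 1 := by linarith
  have e : 2 * t + 1 - t = t + 1 := by omega
  rw [e]
  have h2 : ((t : ℝ) + 1) ≤ (((t + 1).factorial : ℕ) : ℝ) := by
    have := Nat.self_le_factorial (t + 1)
    exact_mod_cast this
  have h3 : 31 / 20 / ((t : ℝ) + 1) ≤ 31 / 20 / 27 :=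
    div_le_div_of_nonneg_left (by norm_num) (by norm_num) (by linarith)
  nlinarith

/-- **from the product bound for families of size exactly `(t+1)!`** -/
theorem holds_of_prodOne {t : ℕ} (ht : 26 ≤ t)
    (h : ProdOne (2 * t + 1) t
      ((61 / 50 + 1 / 1000) * (61 / 50 + 1 / 1000 / (t : ℝ)) * t /
          ((1 - 1 / 1000) ^ 2 * ((t : ℝ) + 1) ^ 2) +
        t * ((7 / 2 / (499 / 500)) ^ 2 / ((t : ℝ) * (t + 1)) ^ 2)))
    (hK : ∀ n' t' : ℕ, 2 * t' + 3 ≤ n' → Holds n' t') : Holds (2 * t + 1) t := by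
  have h26 : (26 : ℝ) ≤ t := by exact_mod_cast ht
  have h1 : (0 : ℝ) < (t : ℝ) + 1 := by linarith
  have h3 : 31 / 20 / ((t : ℝ) + 1) ≤ 31 / 20 / 27 :=
    div_le_div_of_nonneg_left (by norm_num) (by norm_num) (by linarith)
  have h4 : 0 ≤ 31 / 20 / ((t : ℝ) + 1) := by positivity
  refine holds_constsT (constsT_a (by omega)) ?_ (link_all t (by omega)) hK
  refine gap_of_prodOne h h4 (by linarith) (gap_num ht) (lam_le ht) ?_
  refine (lam_le ht).trans (le_of_eq ?_)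
  ring

end Pool.EGL
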