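import Pool.Agent.Work.MP_46fa68_38.Far10

/-!
# MP_46fa68_co: helper38's budget of the rows `≥ 3` with the cap `min s b` (helper27)
-/

set_option autoImplicit false

open Finset Equiv

namespace Pool.JM.FR

open Pool.OB Pool.NV Pool.NW

/-- the rows `≥ 3` are not longer than the second row -/
theorem Two.rl_low_b {k L b s : ℕ} {B : Finset ℕ} (h : Two k L b s B) {x : ℕ}
    (hlt : x < k + b) : rl B x ≤ b := by
  have h1 := Two.dn2 h
  unfold dn at h1
  have e : B.filter (· < k + b) ⊆ B.filter (· < x) ∪ Ico x (k + b) := by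
    intro y hy
    rw [mem_filter] at hy
    rw [mem_union, mem_filter, mem_Ico]
    rcases Nat.lt_or_ge y x with h2 | h2
    · exact Or.inl ⟨hy.1, h2⟩
    · exact Or.inr ⟨h2, hy.2⟩
  have h3 := (card_le_card e).trans (card_union_le _ _)
  rw [h1, Nat.card_Ico] at h3
  unfold rl dn
  omega

/-- **(LOW)** with the cap `min s b` -/
theorem bud_low_b {u : ℤ} {cf : Cf} {μ d t den k L b s Lc nC : ℕ} {X : NI} (h : Adm u cf μ d t)
    (hden : 0 < den) (hX : Mem (1 / ((μ + d : ℕ) : ℝ)) X) (hlen : u = 1 → 1 ≤ cf.v.length)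
    (hok : okBL u μ Lc nC (cf.v.length + 2) = true) {B : Finset ℕ} (hT : Two k L b s B)
    (hN : L + b + s = 2 * (μ + d)) (hs : min s b ≤ Lc + d ∨ (2 * μ) / 3 ≤ Lc) :
    |HL (k + 2) (μ + d) t cf.v.length (vC cf (μ + d) den) (tauC cf (μ + d) den) B (k + b)| * den *
      (S : ℕ) ≤ (budLow u μ cf X Lc nC : ℕ) := by
  have hB0 := Two.mem_Lv hT hN
  obtain ⟨h1, h2, h3, h4⟩ := h
  have htw : tb u μ + wb u μ = 2 * μ := by unfold tb wb; omega
  have hB : B ∈ Lv (k + 2) ((tb u μ + d) + (wb u μ + d)) := by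
    rw [show tb u μ + d + (wb u μ + d) = 2 * (μ + d) by omega]
    exact hB0
  have hcap : ∀ x ∈ B, 2 ≤ up B x → rl B x ≤ Lc + d := by
    intro x hx h2
    have hx2 : x ∈ B.filter (fun x => x < k + b) := by
      rw [Two.low hT]
      exact mem_filter.2 ⟨hx, h2⟩
    rcases hs with hs | hs
    · exact (le_min (Two.rl_low hT hB hx (mem_filter.1 hx2).2)
        (Two.rl_low_b hT (mem_filter.1 hx2).2)).trans hs
    · have h3 := rl_le hB hx (by omega)
      have h4 : (tb u μ + wb u μ) / (up B x + 1) ≤ (tb u μ + wb u μ) / 3 :=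
        Nat.div_le_div_left (by omega) (by norm_num)
      rw [htw] at h3 h4
      exact h3.trans (Nat.add_le_add_right (h4.trans hs) d)
  have hden0 : (0 : ℝ) ≤ den := Nat.cast_nonneg den
  unfold HL
  rw [Two.low hT]
  have e1 := abs_sum_le_sum_abs (fun x => HIx (k + 2) (μ + d) t cf.v.length (vC cf (μ + d) den)
    (tauC cf (μ + d) den) B x) (B.filter (fun x => 2 ≤ up B x))
  refine (mul_le_mul_of_nonneg_right (mul_le_mul_of_nonneg_right e1 hden0)
    (by norm_num [S])).trans ?_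
  refine bud_sum (N := fun q e => lowN (tb u μ) (wb u μ) q e Lc nC) ⟨h1, h2, h3, h4⟩ hden hX hB
    (filter_subset _ _) ?_ hlen
  intro q hq hq0 e he A
  exact low_bound (Adm.rg ⟨h1, h2, h3, h4⟩) he
    (okBL_spec hok (qs_lt ⟨h1, h2, h3, h4⟩ hq) e he) d hB hcap A

end Pool.JM.FR
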