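import Pool.Agent.Work.MP_46fa68_27.TCert
import Pool.Agent.Work.MP_46fa68_27.Cut
import Pool.Agent.Work.MP_46fa68_68.Glue1

/-!
# MP_46fa68_co: the product inequality with free scaling `a ↦ λ a`, `c ↦ c / λ` (helper27)

From `PCert` for all `δ` (with `q0 = 0`) to the product bound for families of size exactly `(n - t)!`.
-/

set_option autoImplicit false

open Finset Equiv

namespace Pool.TW.H27

open Pool.JM Pool.JM.Rare Pool.OS Pool.OB Pool.TW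

variable {n k t : ℕ}

theorem PCert_scale {p0 s11 q0 s12 r0 s22 : ℝ}
    (H : ∀ δ : ℝ, 0 < δ → PCert n k p0 s11 q0 s12 r0 s22 δ) {l : ℝ} (hl : 0 < l) :
    ∀ δ : ℝ, 0 < δ → PCert n k (l * p0) (l * s11) q0 s12 (l⁻¹ * r0) (l⁻¹ * s22) δ := by
  intro δ hδ
  have hi : 0 < l⁻¹ := inv_pos.2 hl
  have hD : 0 < l + 1 + l⁻¹ := by positivity
  obtain ⟨M, a0, b0, c0, a, b, c, q1, q2, q3, l1, l2, l3, hM, ⟨ha1, ha2⟩, ⟨hb1, hb2⟩,
    ⟨hc1, hc2⟩, ⟨h1, h2, h3⟩, ⟨i1, i2, i3⟩, hB⟩ := H (δ / (l + 1 + l⁻¹)) (div_pos hδ hD)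
  obtain ⟨d, hd⟩ : ∃ d : ℝ, d = δ / (l + 1 + l⁻¹) := ⟨_, rfl⟩
  rw [← hd] at i1 i2 i3
  have hd0 : 0 < d := by rw [hd]; exact div_pos hδ hD
  have hd1 : l * d + d + l⁻¹ * d = δ := by
    rw [hd]
    field_simp
  have hld : 0 < l * d := mul_pos hl hd0
  have hid : 0 < l⁻¹ * d := mul_pos hi hd0
  refine ⟨M, fun B => l * a0 B, b0, fun B => l⁻¹ * c0 B, fun B => l * a B, b, fun B => l⁻¹ * c B,
    l * q1, q2, l⁻¹ * q3, l * l1, l2, l⁻¹ * l3, hM, ⟨harm_smul l ha1, val_smul hl.le ha2⟩,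
    ⟨hb1, hb2⟩, ⟨harm_smul _ hc1, val_smul hi.le hc2⟩, ⟨?_, h2, ?_⟩, ⟨?_, ?_, ?_⟩, ?_⟩
  · rw [loss_smul _ _ _ hl.le]
    exact mul_le_mul_of_nonneg_left h1 hl.le
  · rw [loss_smul _ _ _ hi.le]
    exact mul_le_mul_of_nonneg_left h3 hi.le
  · have := mul_le_mul_of_nonneg_left i1 hl.le
    rw [mul_sub, mul_sub] at this
    linarith
  · linarith
  · have := mul_le_mul_of_nonneg_left i3 hi.le
    rw [mul_sub, mul_sub] at this
    linarith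
  · intro B hB'
    obtain ⟨j1, j2, j3⟩ := hB B hB'
    refine ⟨mul_nonneg hl.le j1, mul_nonneg hi.le j2, ?_⟩
    have e : l * a B * (l⁻¹ * c B) = a B * c B := by
      field_simp
    rw [e]
    exact j3

theorem amgm {P Z c : ℝ} (hP : 0 ≤ P) (hZ : 0 ≤ Z) (hc : 0 ≤ c)
    (h : ∀ l : ℝ, 0 < l → 2 * c ≤ l * P + l⁻¹ * Z) : c ^ 2 ≤ P * Z := by
  rcases eq_or_lt_of_le hc with h0 | h0
  · rw [← h0]
    have := mul_nonneg hP hZ
    nlinarith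
  rcases eq_or_lt_of_le hP with h1 | h1
  · exfalso
    have h2 := h ((Z + 1) / c) (by positivity)
    rw [← h1, mul_zero, zero_add, inv_div] at h2
    have h3 : c / (Z + 1) * Z ≤ c := by
      rw [div_mul_eq_mul_div, div_le_iff₀ (by linarith)]
      nlinarith
    linarith
  · have h2 := h (c / P) (by positivity)
    rw [div_mul_cancel₀ _ h1.ne', inv_div] at h2
    have h3 : c ≤ P / c * Z := by linarith
    rw [div_mul_eq_mul_div, le_div_iff₀ h0] at h3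
    nlinarith

/-- **The product bound, size exactly `(n - t)!`.** -/
theorem prodOne_of_PCert {p0 s11 s12 r0 s22 η σ C : ℝ} (hN : n + 1 = k + t) (hk : k + 1 ≤ n)
    (hk1 : 1 ≤ k) (hp0 : 0 ≤ p0) (hr0 : 0 ≤ r0) (hs : 0 < s12) (hη : 0 ≤ η) (hσ : 0 ≤ σ)
    (h11 : -η ≤ s11) (h11' : s11 ≤ 0) (h22 : -σ ≤ s22) (h22' : s22 ≤ 0)
    (H : ∀ δ : ℝ, 0 < δ → PCert n k p0 s11 0 s12 r0 s22 δ)
    (hC : CB (n + 1) (t + 1) (C * ((k + 1).factorial : ℝ) ^ 2)) :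
    EG.ProdOne (n + 1 + 1) t
      ((p0 + η) * (r0 + σ / k) * k / (s12 ^ 2 * ((k : ℝ) + 1) ^ 2) + t * C) := by
  intro A hA hc x y
  obtain ⟨A', hA1, hA2, hA3⟩ := exists_move A x y
  have hA4 : ∀ σ ∈ A', ∀ τ ∈ A', t ≤ ag σ τ := hA3 t hA
  rw [show n + 1 + 1 - t = k + 1 by omega] at hc ⊢
  have e0 : ((EG.thr A x y).card : ℝ) = ((Qs A').card : ℝ) := by
    rw [hA2]
    rfl
  rw [e0, ← hA1]
  rw [← hA1] at hc
  have hk0 : (0 : ℝ) < k := by exact_mod_cast (show 0 < k by omega)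
  have u1 := card_off hN A'
  have u2 := off_le (k := k) A'
  have u3 := hC (Qs A') (Bp k (Ws A')) fun σ hσ τ hτ =>
    (fib A' hA4).cross_big hN hσ (mem_filter.1 hτ).2
  have hT : ∀ l : ℝ, 0 < l → 0 ≤ ((l * p0) * ((Qs A').card : ℝ) +
      (l⁻¹ * r0 + 2 * 0) / k * (TW.off k A' : ℝ)) -
      ((l * s11) * ((Qs A').card : ℝ) ^ 2 + 2 * (s12 * (k + 1) / k) * ((Qs A').card : ℝ) *
        (TW.off k A' : ℝ) + (l⁻¹ * s22) / k ^ 2 * (TW.off k A' : ℝ) ^ 2) / (k + 1).factorial :=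
    fun l hl => TC_lim hN hk hk1 le_rfl (mul_nonneg (inv_pos.2 hl).le hr0)
      (PCert_scale H hl) A' hA4
  have u1' : (A'.card : ℝ) ≤
      ((Qs A').card : ℝ) + ((TW.off k A' : ℝ) + t * ((Bp k (Ws A')).card : ℝ)) := by
    exact_mod_cast u1
  have u2' : ((Qs A').card : ℝ) + (TW.off k A' : ℝ) ≤ (A'.card : ℝ) := by exact_mod_cast u2
  have hc' : (A'.card : ℝ) = ((k + 1).factorial : ℝ) := by exact_mod_cast hc
  have hB0 : (0 : ℝ) ≤ ((Bp k (Ws A')).card : ℝ) := Nat.cast_nonneg _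
  have hY0 : (0 : ℝ) ≤ (TW.off k A' : ℝ) := Nat.cast_nonneg _
  have hX0 : (0 : ℝ) ≤ ((Qs A').card : ℝ) := Nat.cast_nonneg _
  obtain ⟨X, hX⟩ : ∃ X : ℝ, X = ((Qs A').card : ℝ) := ⟨_, rfl⟩
  obtain ⟨Y, hY⟩ : ∃ Y : ℝ, Y = (TW.off k A' : ℝ) := ⟨_, rfl⟩
  obtain ⟨D, hD⟩ : ∃ D : ℝ, D = ((Bp k (Ws A')).card : ℝ) := ⟨_, rfl⟩
  obtain ⟨F, hF⟩ : ∃ F : ℝ, F = ((k + 1).factorial : ℝ) := ⟨_, rfl⟩
  have hF0 : 0 < F := by rw [hF]; exact_mod_cast (k + 1).factorial_pos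
  rw [← hX, ← hY, ← hF] at hT
  rw [← hX, ← hY, ← hD] at u1'
  rw [← hX, ← hY] at u2'
  rw [← hX, ← hD, ← hF] at u3
  rw [← hX, ← hF]
  rw [← hF] at hc'
  rw [hc'] at u1' u2' ⊢
  rw [← hY] at hY0
  rw [← hX] at hX0
  rw [← hD] at hB0
  clear hX hY hD
  -- the quadratic part
  obtain ⟨P, hP⟩ : ∃ P : ℝ, P = p0 * X - s11 * X ^ 2 / F := ⟨_, rfl⟩
  obtain ⟨Z, hZ⟩ : ∃ Z : ℝ, Z = r0 / k * Y - s22 / k ^ 2 * Y ^ 2 / F := ⟨_, rfl⟩
  obtain ⟨c, hcd⟩ : ∃ c : ℝ, c = s12 * (k + 1) / k * (X * Y) / F := ⟨_, rfl⟩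
  have hXF : X ≤ F := by linarith
  have hYF : Y ≤ F := by linarith
  have hP0 : 0 ≤ P := by
    rw [hP]
    have h1 : s11 * X ^ 2 / F ≤ 0 :=
      div_nonpos_of_nonpos_of_nonneg (mul_nonpos_of_nonpos_of_nonneg h11' (sq_nonneg X)) hF0.le
    have := mul_nonneg hp0 hX0
    linarith
  have hZ0 : 0 ≤ Z := by
    rw [hZ]
    have h1 : s22 / k ^ 2 * Y ^ 2 / F ≤ 0 :=
      div_nonpos_of_nonpos_of_nonneg (mul_nonpos_of_nonpos_of_nonneg
        (div_nonpos_of_nonpos_of_nonneg h22' (by positivity)) (sq_nonneg Y)) hF0.le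
    have : 0 ≤ r0 / k * Y := by positivity
    linarith
  have hc0 : 0 ≤ c := by rw [hcd]; positivity
  have hmain : c ^ 2 ≤ P * Z := by
    refine amgm hP0 hZ0 hc0 fun l hl => ?_
    have h1 := hT l hl
    have e : ((l * p0) * X + (l⁻¹ * r0 + 2 * 0) / k * Y) -
        ((l * s11) * X ^ 2 + 2 * (s12 * (k + 1) / k) * X * Y +
          (l⁻¹ * s22) / k ^ 2 * Y ^ 2) / F = l * P + l⁻¹ * Z - 2 * c := by
      rw [hP, hZ, hcd]
      ring
    rw [e] at h1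
    linarith
  have hPle : P ≤ (p0 + η) * X := by
    rw [hP]
    have h1 : -(s11 * X ^ 2 / F) ≤ η * X := by
      rw [← neg_div, div_le_iff₀ hF0]
      have h2 : -s11 * X ^ 2 ≤ η * X ^ 2 := mul_le_mul_of_nonneg_right (by linarith) (sq_nonneg X)
      have h3 : η * X * X ≤ η * X * F := mul_le_mul_of_nonneg_left hXF (by positivity)
      nlinarith
    linarith
  have hZle : Z ≤ (r0 + σ / k) * Y / k := by
    rw [hZ]
    have h1 : -(s22 / k ^ 2 * Y ^ 2 / F) ≤ σ / k ^ 2 * Y := by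
      rw [← neg_div, div_le_iff₀ hF0]
      have h2 : -(s22 / k ^ 2 * Y ^ 2) ≤ σ / k ^ 2 * Y ^ 2 := by
        have : -s22 / k ^ 2 ≤ σ / k ^ 2 := div_le_div_of_nonneg_right (by linarith) (by positivity)
        have h4 := mul_le_mul_of_nonneg_right this (sq_nonneg Y)
        refine le_trans (le_of_eq ?_) h4
        ring
      have h3 : σ / k ^ 2 * Y * Y ≤ σ / k ^ 2 * Y * F := mul_le_mul_of_nonneg_left hYF (by positivity)
      nlinarith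
    have e : (r0 + σ / k) * Y / k = r0 / k * Y + σ / k ^ 2 * Y := by
      field_simp
    rw [e]
    linarith
  have hXY : X * Y ≤ (p0 + η) * (r0 + σ / k) * k / (s12 ^ 2 * ((k : ℝ) + 1) ^ 2) * F ^ 2 := by
    rcases eq_or_lt_of_le (mul_nonneg hX0 hY0) with h0 | h0
    · rw [← h0]
      positivity
    · have h1 : c ^ 2 ≤ ((p0 + η) * X) * ((r0 + σ / k) * Y / k) :=
        hmain.trans (mul_le_mul hPle hZle hZ0 (by positivity))
      have e1 : c ^ 2 = (X * Y) * ((X * Y) * (s12 ^ 2 * ((k : ℝ) + 1) ^ 2 / (k ^ 2 * F ^ 2))) := by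
        rw [hcd]
        field_simp
      have e2 : ((p0 + η) * X) * ((r0 + σ / k) * Y / k) =
          (X * Y) * ((p0 + η) * (r0 + σ / k) / k) := by ring
      rw [e1, e2] at h1
      have h2 := le_of_mul_le_mul_left h1 h0
      have h3 : 0 < s12 ^ 2 * ((k : ℝ) + 1) ^ 2 / (k ^ 2 * F ^ 2) := by positivity
      rw [← le_div_iff₀ h3] at h2
      refine h2.trans (le_of_eq ?_)
      field_simp
  have h5 : X * (F - X) ≤ X * Y + t * (X * D) := by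
    have h6 : F - X ≤ Y + t * D := by linarith
    have := mul_le_mul_of_nonneg_left h6 hX0
    linarith
  have h7 : t * (X * D) ≤ t * (C * F ^ 2) := mul_le_mul_of_nonneg_left u3 (Nat.cast_nonneg t)
  calc X * (F - X) ≤ X * Y + t * (X * D) := h5
    _ ≤ (p0 + η) * (r0 + σ / k) * k / (s12 ^ 2 * ((k : ℝ) + 1) ^ 2) * F ^ 2 + t * (C * F ^ 2) :=
        add_le_add hXY h7
    _ = _ := by ring

end Pool.TW.H27
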