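import Mathlib

/-!
# MP_46fa68_co, S4 (CORE): one row as a weighted series

`u d` = weight of the displacement `d`, including `(m+1-j)! / (m+1-j+d)!`.  Moments `m0 = ∑ u d`, `m1 = ∑ d u d`,
absolute moments `am k q = ∑ |u d| d^k q^d`.  The value of a row is `∑ u d * g d` with
`1 + d δ ≤ g d ≤ 1 + d δ + d (d - 1) δ e (1+e)^d` (first row, helper38's (U1)), resp. `∑ u d (1 - d / D) θ d` with
`1 ≤ θ d ≤ 1 + d τ` (second row).
-/

set_option autoImplicit false

open Finset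

namespace Pool.JM.Core

/-- good weights: all absolute moments up to the order 3 with the factor `q^d` are finite -/
def Sm (q : ℝ) (u : ℕ → ℝ) : Prop := Summable fun d : ℕ => |u d| * ((d : ℝ) + 1) ^ 3 * q ^ d

noncomputable def m0 (u : ℕ → ℝ) : ℝ := ∑' d, u d
noncomputable def m1 (u : ℕ → ℝ) : ℝ := ∑' d : ℕ, u d * d
noncomputable def am (k : ℕ) (q : ℝ) (u : ℕ → ℝ) : ℝ := ∑' d : ℕ, |u d| * (d : ℝ) ^ k * q ^ d

variable {u : ℕ → ℝ} {q : ℝ}

/-- everything dominated by `|u d| (d+1)^3 q^d` is summable -/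
theorem Sm.dom (h : Sm q u) (hq : 1 ≤ q) {f : ℕ → ℝ} {c : ℝ}
    (hf : ∀ d, |f d| ≤ c * (|u d| * ((d : ℝ) + 1) ^ 3 * q ^ d)) : Summable f :=
  Summable.of_norm_bounded (h.mul_left c) fun d => by rw [Real.norm_eq_abs]; exact hf d

theorem Sm.pw (h : Sm q u) (hq : 1 ≤ q) {k : ℕ} (hk : k ≤ 3) {r : ℝ} (hr0 : 0 ≤ r) (hr : r ≤ q) :
    Summable fun d : ℕ => |u d| * (d : ℝ) ^ k * r ^ d := by
  refine h.dom hq (c := 1) fun d => ?_
  rw [one_mul, abs_of_nonneg (by positivity)]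
  have h1 : (d : ℝ) ^ k ≤ ((d : ℝ) + 1) ^ 3 := by
    calc (d : ℝ) ^ k ≤ ((d : ℝ) + 1) ^ k := pow_le_pow_left₀ (by positivity) (by linarith) k
      _ ≤ ((d : ℝ) + 1) ^ 3 := pow_le_pow_right₀ (by
        have : (0 : ℝ) ≤ d := Nat.cast_nonneg d
        linarith) hk
  have h2 : r ^ d ≤ q ^ d := pow_le_pow_left₀ hr0 hr d
  exact mul_le_mul (mul_le_mul_of_nonneg_left h1 (abs_nonneg _)) h2 (by positivity) (by positivity)

theorem Sm.s0 (h : Sm q u) (hq : 1 ≤ q) : Summable u := by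
  have h1 := h.pw hq (k := 0) (by norm_num) zero_le_one hq
  refine Summable.of_norm_bounded h1 fun d => ?_
  rw [Real.norm_eq_abs]
  simp

theorem Sm.s1 (h : Sm q u) (hq : 1 ≤ q) : Summable fun d : ℕ => u d * d := by
  have h1 := h.pw hq (k := 1) (by norm_num) zero_le_one hq
  refine Summable.of_norm_bounded h1 fun d => ?_
  rw [Real.norm_eq_abs, abs_mul, abs_of_nonneg (Nat.cast_nonneg d : (0 : ℝ) ≤ d)]
  simp

theorem am_nonneg {k : ℕ} (hq : 0 ≤ q) : 0 ≤ am k q u :=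
  tsum_nonneg fun d => by positivity

theorem am_mono (h : Sm q u) (hq : 1 ≤ q) {k : ℕ} (hk : k ≤ 3) {r r' : ℝ} (hr0 : 0 ≤ r)
    (hrr : r ≤ r') (hr : r' ≤ q) : am k r u ≤ am k r' u := by
  refine Summable.tsum_le_tsum (fun d => ?_) (h.pw hq hk hr0 (hrr.trans hr))
    (h.pw hq hk (hr0.trans hrr) hr)
  exact mul_le_mul_of_nonneg_left (pow_le_pow_left₀ hr0 hrr d) (by positivity)

/-- **a series with multipliers near `1 + d δ`** -/
theorem lin_of (h : Sm q u) (hq : 1 ≤ q) {g : ℕ → ℝ} {δ : ℝ} {c : ℝ} {k : ℕ} (hk : k ≤ 3) {r : ℝ}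
    (hr0 : 0 ≤ r) (hr : r ≤ q) (hc : 0 ≤ c)
    (hg : ∀ d : ℕ, |g d - (1 + d * δ)| ≤ c * ((d : ℝ) ^ k * r ^ d)) :
    Summable (fun d => u d * g d) ∧
      |∑' d, u d * g d - (m0 u + δ * m1 u)| ≤ c * am k r u := by
  have h0 := h.s0 hq
  have h1 := (h.s1 hq).mul_left δ
  have hp := (h.pw hq hk hr0 hr).mul_left c
  have he : Summable fun d => u d * (g d - (1 + d * δ)) := by
    refine Summable.of_norm_bounded hp fun d => ?_
    rw [Real.norm_eq_abs, abs_mul]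
    calc |u d| * |g d - (1 + d * δ)| ≤ |u d| * (c * ((d : ℝ) ^ k * r ^ d)) :=
          mul_le_mul_of_nonneg_left (hg d) (abs_nonneg _)
      _ = _ := by ring
  have e : (fun d => u d * g d) = fun d => (u d + δ * (u d * d)) + u d * (g d - (1 + d * δ)) := by
    funext d
    ring
  have hs : Summable fun d => u d * g d := by
    rw [e]
    exact (h0.add h1).add he
  refine ⟨hs, ?_⟩
  have e2 : ∑' d, u d * g d = (m0 u + δ * m1 u) + ∑' d, u d * (g d - (1 + d * δ)) := by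
    rw [e, (h0.add h1).tsum_add he, h0.tsum_add h1, tsum_mul_left]
    rfl
  rw [e2, add_sub_cancel_left]
  have h2 := tsum_of_norm_bounded hp.hasSum (f := fun d => u d * (g d - (1 + d * δ))) (fun d => by
    rw [Real.norm_eq_abs, abs_mul]
    calc |u d| * |g d - (1 + d * δ)| ≤ |u d| * (c * ((d : ℝ) ^ k * r ^ d)) :=
          mul_le_mul_of_nonneg_left (hg d) (abs_nonneg _)
      _ = _ := by ring)
  rw [Real.norm_eq_abs, tsum_mul_left] at h2
  exact h2

/-- **first row** -/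
theorem row_one_lin (h : Sm q u) (hq : 1 ≤ q) {g : ℕ → ℝ} {δ e : ℝ} (hδ : 0 ≤ δ) (he : 0 ≤ e)
    (heq : 1 + e ≤ q)
    (hg : ∀ d : ℕ, 1 + d * δ ≤ g d ∧ g d ≤ 1 + d * δ + d * (d - 1) * (δ * e) * (1 + e) ^ d) :
    Summable (fun d => u d * g d) ∧
      |∑' d, u d * g d - (m0 u + δ * m1 u)| ≤ (δ * e) * am 2 (1 + e) u := by
  refine lin_of h hq (by norm_num) (by linarith) heq (by positivity) fun d => ?_
  obtain ⟨h1, h2⟩ := hg d
  rw [abs_of_nonneg (by linarith)]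
  have hd : (0 : ℝ) ≤ d := Nat.cast_nonneg d
  have h3 : (d : ℝ) * (d - 1) * (δ * e) * (1 + e) ^ d ≤ (d : ℝ) ^ 2 * (δ * e) * (1 + e) ^ d := by
    have h4 : (d : ℝ) * (d - 1) ≤ (d : ℝ) ^ 2 := by nlinarith
    exact mul_le_mul_of_nonneg_right (mul_le_mul_of_nonneg_right h4 (by positivity)) (by positivity)
  calc g d - (1 + d * δ) ≤ d * (d - 1) * (δ * e) * (1 + e) ^ d := by linarith
    _ ≤ _ := h3
    _ = _ := by ring

/-- **second row** -/
theorem row_two_lin (h : Sm q u) (hq : 1 ≤ q) {θ : ℕ → ℝ} {D τ : ℝ} (hD : 1 ≤ D) (hτ : 0 ≤ τ)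
    (hθ : ∀ d : ℕ, 1 ≤ θ d ∧ θ d ≤ 1 + d * τ) :
    Summable (fun d => u d * ((1 - d / D) * θ d)) ∧
      |∑' d, u d * ((1 - d / D) * θ d) - (m0 u - m1 u / D)| ≤ τ * am 2 1 u := by
  have hD0 : 0 < D := by linarith
  have key := lin_of h hq (g := fun d => (1 - d / D) * θ d) (δ := -(1 / D)) (c := τ) (k := 2)
    (by norm_num) zero_le_one hq hτ (fun d => by
      obtain ⟨h1, h2⟩ := hθ d
      have e : (1 - (d : ℝ) / D) * θ d - (1 + d * -(1 / D)) = (1 - (d : ℝ) / D) * (θ d - 1) := by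
        ring
      rw [e, abs_mul, abs_of_nonneg (by linarith : 0 ≤ θ d - 1), one_pow, mul_one]
      have hd : (0 : ℝ) ≤ d := Nat.cast_nonneg d
      rcases Nat.eq_zero_or_pos d with rfl | hpos
      · have h3 : θ 0 = 1 := by
          have : θ 0 ≤ 1 := by simpa using h2
          linarith
        simp [h3]
      · have hd1 : (1 : ℝ) ≤ d := by exact_mod_cast hpos
        have h3 : |1 - (d : ℝ) / D| ≤ d := by
          have h4 : (d : ℝ) / D ≤ d := div_le_self hd hD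
          have h5 : 0 ≤ (d : ℝ) / D := by positivity
          rw [abs_le]
          constructor <;> linarith
        calc |1 - (d : ℝ) / D| * (θ d - 1) ≤ d * (d * τ) :=
              mul_le_mul h3 (by linarith) (by linarith) hd
          _ = τ * (d : ℝ) ^ 2 := by ring)
  refine ⟨key.1, ?_⟩
  rw [show m0 u - m1 u / D = m0 u + -(1 / D) * m1 u by ring]
  exact key.2

end Pool.JM.Core
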