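import Pool.Agent.Work.MP_46fa68_23.Mo4
import Pool.Agent.Work.MP_46fa68_47.Inf

/-!
# MP_46fa68_co: a wall one higher is a list with a leading zero; exactness of the three lists (helper27)
-/

set_option autoImplicit false

open Finset

namespace Pool.EGL

open Pool.OB Pool.NV

/-- a leading zero -/
noncomputable def shl (v : ℕ → ℕ → ℝ) : ℕ → ℕ → ℝ
  | 0, _ => 0
  | q + 1, p => v q p

theorem kl_shl (t Q : ℕ) (v : ℕ → ℕ → ℝ) (τ : ℝ) (j : ℤ) (p : ℕ) :
    kl t (Q + 1) (shl v) τ j p = kl t Q v τ (j + 1) p := by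
  unfold kl
  rw [sum_range_succ']
  have h0 : (if 0 ≤ ((0 : ℕ) : ℤ) - 1 + j then
      ∑ a ∈ range (p + 1), wq t (((0 : ℕ) : ℤ) - 1 + j).toNat a * shl v 0 (p - a) else 0) = 0 := by
    split_ifs
    · exact sum_eq_zero fun a _ => by
        change _ * (0 : ℝ) = 0
        rw [mul_zero]
    · rfl
  rw [h0, add_zero]
  have e1 : ∀ q : ℕ, ((q + 1 : ℕ) : ℤ) - 1 + j = (q : ℤ) - 1 + (j + 1) := fun q => by push_cast; ring
  simp only [e1]
  rfl

theorem HI_shl (K w T Q : ℕ) (v : ℕ → ℕ → ℝ) (τ : ℝ) (B : Finset ℕ) :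
    HI K w T (Q + 1) (shl v) τ B = HI K (w + 1) T Q v τ B := by
  unfold HI HIx
  refine sum_congr rfl fun x _ => tsum_congr fun p => ?_
  rw [kl_shl]
  have e : ((K - 1 + (w + 1) : ℕ) : ℤ) - x = ((K - 1 + w : ℕ) : ℤ) - x + 1 := by push_cast; ring
  rw [e]

theorem kl_congr {t Q : ℕ} {v v' : ℕ → ℕ → ℝ} (h : ∀ q, q < Q → ∀ p, v q p = v' q p) (τ : ℝ) (j : ℤ)
    (p : ℕ) : kl t Q v τ j p = kl t Q v' τ j p := by
  unfold kl
  congr 1
  refine sum_congr rfl fun q hq => ?_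
  split_ifs
  · exact sum_congr rfl fun a _ => by rw [h q (mem_range.1 hq)]
  · rfl

theorem HI_congr {K w T Q : ℕ} {v v' : ℕ → ℕ → ℝ} (h : ∀ q, q < Q → ∀ p, v q p = v' q p) (τ : ℝ)
    (B : Finset ℕ) : HI K w T Q v τ B = HI K w T Q v' τ B := by
  unfold HI HIx
  exact sum_congr rfl fun x _ => tsum_congr fun p => by rw [kl_congr h]

/-- drop the first entry, which is zero -/
theorem HI_drop {K w T Q : ℕ} {v : ℕ → ℕ → ℝ} (h : ∀ p, v 0 p = 0) (τ : ℝ) (B : Finset ℕ) :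
    HI K w T (Q + 1) v τ B = HI K (w + 1) T Q (fun q p => v (q + 1) p) τ B := by
  rw [← HI_shl]
  refine HI_congr (fun q _ p => ?_) τ B
  cases q with
  | zero => exact h p
  | succ q => rfl

end Pool.EGL
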