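import Pool.Agent.Work.MP_46fa68_14.Rare3
import Pool.Agent.Work.MP_46fa68_h3.Two
import Pool.Agent.Work.MP_46fa68_47.Inf

/-!
# MP_46fa68_co: the two-class certificate with overrides, its limit form, and the sources (helper27)

`two_class_rare`: the functions `a`, `b`, `c` on the top level are arbitrary, harmonic functions `a0`, `b0`, `c0` are
near them in the Plancherel mean.  `TC_lim`: the limit.  `PCert_of_sources`: `a0`, `b0`, `c0` are one-bead functions.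
-/

set_option autoImplicit false

open Finset Equiv

namespace Pool.TW.H27

open Pool.JM Pool.JM.Rare Pool.OS Pool.OB Pool.TW

variable {n k t M : ℕ}

/-- **The two-class certificate with overrides.** -/
theorem two_class_rare (hN : n + 1 = k + t) (hk : k + 1 ≤ n) (hk1 : 1 ≤ k) (hM : n + 1 < M)
    (a0 b0 c0 a b c : Finset ℕ → ℝ) (p0 s11 q0 s12 r0 s22 l1 l2 l3 : ℝ)
    (ha1 : Harm M (k + 1) (n + 1) a0) (ha2 : Val (n + 1) M (k + 1) a0 p0 s11)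
    (hb1 : Harm M k (n + 1) b0) (hb2 : Val (n + 1) M k b0 q0 s12) (hq0 : 0 ≤ q0)
    (hc1 : Harm M (k + 1) (n + 1) c0) (hc2 : Val (n + 1) M (k + 1) c0 r0 s22) (hr0 : 0 ≤ r0)
    (h1 : loss M (k + 1) (n + 1) a0 a ≤ l1) (h2 : loss M k (n + 1) b0 b ≤ l2)
    (h3 : loss M (k + 1) (n + 1) c0 c ≤ l3)
    (ha : ∀ B ∈ Lv M (n + 1), 0 ≤ a B) (hc : ∀ B ∈ Lv M (n + 1), 0 ≤ c B)
    (hab : ∀ B ∈ Lv M (n + 1), b B ^ 2 ≤ a B * c B) :
    TC n k t p0 (s11 - l1) ((s12 - l2) * (k + 1) / k) ((r0 + 2 * q0) / k)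
      ((s22 - l3) / k ^ 2) := by
  obtain ⟨a', a1, a2, a3⟩ := override (N := n + 1) hM (by omega) le_rfl a0
    (fun B => a B - a0 B) p0 s11 ha1 ha2
  obtain ⟨b', b1, b2, b3⟩ := override (N := n + 1) hM (by omega) le_rfl b0
    (fun B => b B - b0 B) q0 s12 hb1 hb2
  obtain ⟨c', d1, d2, d3⟩ := override (N := n + 1) hM (by omega) le_rfl c0
    (fun B => c B - c0 B) r0 s22 hc1 hc2
  have ea : ∀ B ∈ Lv M (n + 1), a' B = a B := fun B hB => by rw [a1 B hB]; ring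
  have eb : ∀ B ∈ Lv M (n + 1), b' B = b B := fun B hB => by rw [b1 B hB]; ring
  have ec : ∀ B ∈ Lv M (n + 1), c' B = c B := fun B hB => by rw [d1 B hB]; ring
  refine two_class hN hk hk1 hM a' b' c' p0 (s11 - l1) q0 (s12 - l2) r0 (s22 - l3)
    a2 (val_mono a3 le_rfl (sub_le_sub_left h1 _)) b2 (val_mono b3 le_rfl (sub_le_sub_left h2 _))
    hq0 d2 (val_mono d3 le_rfl (sub_le_sub_left h3 _)) hr0
    (fun B hB => by rw [ea B hB]; exact ha B hB) (fun B hB => by rw [ec B hB]; exact hc B hB)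
    (fun B hB => by rw [ea B hB, eb B hB, ec B hB]; exact hab B hB)

/-- the data of a two-class certificate up to `δ` -/
def PCert (n k : ℕ) (p0 s11 q0 s12 r0 s22 δ : ℝ) : Prop :=
  ∃ (M : ℕ) (a0 b0 c0 a b c : Finset ℕ → ℝ) (q1 q2 q3 l1 l2 l3 : ℝ),
    n + 1 < M ∧
    (Harm M (k + 1) (n + 1) a0 ∧ Val (n + 1) M (k + 1) a0 p0 q1) ∧
    (Harm M k (n + 1) b0 ∧ Val (n + 1) M k b0 q0 q2) ∧
    (Harm M (k + 1) (n + 1) c0 ∧ Val (n + 1) M (k + 1) c0 r0 q3) ∧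
    (loss M (k + 1) (n + 1) a0 a ≤ l1 ∧ loss M k (n + 1) b0 b ≤ l2 ∧
      loss M (k + 1) (n + 1) c0 c ≤ l3) ∧
    (s11 - δ ≤ q1 - l1 ∧ s12 - δ ≤ q2 - l2 ∧ s22 - δ ≤ q3 - l3) ∧
    (∀ B ∈ Lv M (n + 1), 0 ≤ a B ∧ 0 ≤ c B ∧ b B ^ 2 ≤ a B * c B)

/-- the inequality of a certificate for the sizes `X`, `Y` -/
theorem lim_aux {W1 W2 s11 s12 s22 c X Y F : ℝ} (hX : 0 ≤ X) (hY : 0 ≤ Y) (hF : 0 < F)
    (hc : 0 ≤ c)
    (h : ∀ δ : ℝ, 0 < δ → ∃ u1 u2 u3 : ℝ, s11 - δ ≤ u1 ∧ s12 - c * δ ≤ u2 ∧ s22 - δ ≤ u3 ∧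
      0 ≤ (W1 * X + W2 * Y) - (u1 * X ^ 2 + 2 * u2 * X * Y + u3 * Y ^ 2) / F) :
    0 ≤ (W1 * X + W2 * Y) - (s11 * X ^ 2 + 2 * s12 * X * Y + s22 * Y ^ 2) / F := by
  obtain ⟨Z, hZ⟩ : ∃ Z : ℝ, Z = (X ^ 2 + 2 * c * (X * Y) + Y ^ 2) / F := ⟨_, rfl⟩
  have hXY := mul_nonneg hX hY
  have hZ0 : 0 ≤ Z := by rw [hZ]; positivity
  have key : ∀ δ : ℝ, 0 < δ → 0 ≤ (W1 * X + W2 * Y) -
      (s11 * X ^ 2 + 2 * s12 * X * Y + s22 * Y ^ 2) / F + δ * Z := by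
    intro δ hδ
    obtain ⟨u1, u2, u3, p1, p2, p3, h'⟩ := h δ hδ
    refine h'.trans ?_
    have e1 : (s11 * X ^ 2 + 2 * s12 * X * Y + s22 * Y ^ 2) - δ * (X ^ 2 + 2 * c * (X * Y) + Y ^ 2) ≤
        u1 * X ^ 2 + 2 * u2 * X * Y + u3 * Y ^ 2 := by
      have i1 := mul_le_mul_of_nonneg_right p1 (sq_nonneg X)
      have i2 := mul_le_mul_of_nonneg_right p2 hXY
      have i3 := mul_le_mul_of_nonneg_right p3 (sq_nonneg Y)
      nlinarith
    have e2 := div_le_div_of_nonneg_right e1 hF.le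
    rw [sub_div, mul_div_assoc, ← hZ] at e2
    linarith
  by_contra hcon
  rw [not_le] at hcon
  obtain ⟨V, hV⟩ : ∃ V : ℝ, V = (W1 * X + W2 * Y) -
    (s11 * X ^ 2 + 2 * s12 * X * Y + s22 * Y ^ 2) / F := ⟨_, rfl⟩
  rw [← hV] at hcon
  have hd : 0 < -V / (2 * (Z + 1)) := by
    apply div_pos (by linarith) (by linarith)
  have h2 := key _ hd
  rw [← hV] at h2
  have h1 : -V / (2 * (Z + 1)) * Z ≤ -V / 2 := by
    rw [div_mul_eq_mul_div, div_le_div_iff₀ (by linarith) (by norm_num)]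
    nlinarith
  linarith

/-- **The limit form.** -/
theorem TC_lim (hN : n + 1 = k + t) (hk : k + 1 ≤ n) (hk1 : 1 ≤ k)
    {p0 s11 q0 s12 r0 s22 : ℝ} (hq0 : 0 ≤ q0) (hr0 : 0 ≤ r0)
    (H : ∀ δ : ℝ, 0 < δ → PCert n k p0 s11 q0 s12 r0 s22 δ) :
    TC n k t p0 s11 (s12 * (k + 1) / k) ((r0 + 2 * q0) / k) (s22 / k ^ 2) := by
  intro A hA
  have hk0 : (1 : ℝ) ≤ k := by exact_mod_cast hk1
  have hF : (0 : ℝ) < ((k + 1).factorial : ℝ) := by exact_mod_cast (k + 1).factorial_pos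
  refine lim_aux (c := (k + 1) / k) (Nat.cast_nonneg _) (Nat.cast_nonneg _) hF (by positivity)
    fun δ hδ => ?_
  obtain ⟨M, a0, b0, c0, a, b, c, q1, q2, q3, l1, l2, l3, hM, ⟨ha1, ha2⟩, ⟨hb1, hb2⟩,
    ⟨hc1, hc2⟩, ⟨h1, h2, h3⟩, ⟨i1, i2, i3⟩, hB⟩ := H δ hδ
  have h := two_class_rare hN hk hk1 hM a0 b0 c0 a b c p0 q1 q0 q2 r0 q3 l1 l2 l3 ha1 ha2 hb1 hb2
    hq0 hc1 hc2 hr0 h1 h2 h3 (fun B hB' => (hB B hB').1) (fun B hB' => (hB B hB').2.1)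
    (fun B hB' => (hB B hB').2.2) A hA
  refine ⟨_, _, _, i1, ?_, ?_, h⟩
  · have h4 : (s12 - δ) * (k + 1) / k ≤ (q2 - l2) * (k + 1) / k := by gcongr
    refine le_trans (le_of_eq ?_) h4
    ring
  · have h4 : (s22 - δ) / k ^ 2 ≤ (q3 - l3) / k ^ 2 := by gcongr
    refine le_trans ?_ h4
    rw [sub_div]
    have h5 : δ / k ^ 2 ≤ δ := div_le_self hδ.le (one_le_pow₀ hk0)
    linarith

/-- **The sources.**  Level `n + 1 = (k + 1) + u = k + (u + 1)`. -/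
theorem PCert_of_sources {u p1 Qa Qb Qc : ℕ} (hN : n + 1 = k + (u + 1)) (hk2 : 2 ≤ k)
    (hQa : 2 ≤ Qa) (hQb : 2 ≤ Qb) (hQc : 2 ≤ Qc)
    (va vb vc : ℕ → ℕ → ℝ) (τa τb τc ca cb cc εa εb εc : ℝ)
    (hva : ∀ q p, p1 ≤ p → va q p = 0) (hvb : ∀ q p, p1 ≤ p → vb q p = 0)
    (hvc : ∀ q p, p1 ≤ p → vc q p = 0)
    (h0a : ∑ p ∈ range p1, va 0 p * r1 (k + 1) p = 0)
    (h0b : ∑ p ∈ range p1, vb 0 p * r1 k p = 0)
    (h0c : ∑ p ∈ range p1, vc 0 p * r1 (k + 1) p = 0)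
    {K₁ : ℕ} (H : ∀ K, K₁ ≤ K → ∃ a b c : Finset ℕ → ℝ,
      (∀ B ∈ Lv K (n + 1), 0 ≤ a B ∧ 0 ≤ c B ∧ b B ^ 2 ≤ a B * c B) ∧
      loss K (k + 1) (n + 1) (fun B => ca + HI K (k + 1) u Qa va τa B) a ≤ εa ∧
      loss K k (n + 1) (fun B => cb + HI K k (u + 1) Qb vb τb B) b ≤ εb ∧
      loss K (k + 1) (n + 1) (fun B => cc + HI K (k + 1) u Qc vc τc B) c ≤ εc) :
    ∀ δ : ℝ, 0 < δ → PCert n k ca (-sv (k + 1) p1 (va 1) - εa) cb (-sv k p1 (vb 1) - εb)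
      cc (-sv (k + 1) p1 (vc 1) - εc) δ := by
  intro δ hδ
  have hF : (0 : ℝ) < ((k + 1).factorial : ℝ) := by exact_mod_cast (k + 1).factorial_pos
  have hF' : (0 : ℝ) < (k.factorial : ℝ) := by exact_mod_cast k.factorial_pos
  have hFF : (k.factorial : ℝ) ≤ ((k + 1).factorial : ℝ) := by
    exact_mod_cast Nat.factorial_le (Nat.le_succ k)
  obtain ⟨d, hd⟩ : ∃ d : ℝ, d = δ / (1 + ((k + 1).factorial : ℝ)) := ⟨_, rfl⟩
  have hd0 : 0 < d := by rw [hd]; positivity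
  have hd1 : d + ((k + 1).factorial : ℝ) * d = δ := by rw [hd]; field_simp
  have hd2 : d + (k.factorial : ℝ) * d ≤ δ := by
    rw [← hd1]
    have := mul_le_mul_of_nonneg_right hFF hd0.le
    linarith
  obtain ⟨Ka, hKa⟩ := source_inf (t := u) (by omega : 2 ≤ k + 1) hQa va τa ca hva h0a hd0
  obtain ⟨Kb, hKb⟩ := source_inf (t := u + 1) hk2 hQb vb τb cb hvb h0b hd0
  obtain ⟨Kc, hKc⟩ := source_inf (t := u) (by omega : 2 ≤ k + 1) hQc vc τc cc hvc h0c hd0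
  obtain ⟨K, hK⟩ : ∃ K, K = max (max Ka Kb) (max Kc K₁) + (n + 2) := ⟨_, rfl⟩
  have e1 : Ka ≤ K := by
    have := (le_max_left Ka Kb).trans (le_max_left (max Ka Kb) (max Kc K₁)); omega
  have e2 : Kb ≤ K := by
    have := (le_max_right Ka Kb).trans (le_max_left (max Ka Kb) (max Kc K₁)); omega
  have e3 : Kc ≤ K := by
    have := (le_max_left Kc K₁).trans (le_max_right (max Ka Kb) (max Kc K₁)); omega
  have e4 : K₁ ≤ K := by
    have := (le_max_right Kc K₁).trans (le_max_right (max Ka Kb) (max Kc K₁)); omega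
  have e5 : n + 1 < K := by omega
  have n1 : k + 1 + u = n + 1 := by omega
  have n2 : k + (u + 1) = n + 1 := by omega
  obtain ⟨a0, a1, a2, a3⟩ := hKa K e1
  obtain ⟨b0, b1, b2, b3⟩ := hKb K e2
  obtain ⟨c0, c1, c2, c3⟩ := hKc K e3
  rw [n1] at a1 a3 c1 c3
  rw [n2] at b1 b3
  obtain ⟨a, b, c, hB, l1, l2, l3⟩ := H K e4
  have L : ∀ (m' : ℕ) (x0 : Finset ℕ → ℝ) (x1 x : Finset ℕ → ℝ) (ε : ℝ),
      (∀ B ∈ Lv K (n + 1), |x0 B - x1 B| ≤ d) → loss K m' (n + 1) x1 x ≤ ε →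
      loss K m' (n + 1) x0 x ≤ m'.factorial * d + ε := by
    intro m' x0 x1 x ε hx he
    refine (loss_trans K m' (n + 1) x0 x1 x).trans (add_le_add ?_ he)
    refine loss_le_of_sup e5 fun B hB' => ?_
    rw [abs_sub_comm]
    exact hx B hB'
  refine ⟨K, a0, b0, c0, a, b, c, _, _, _, _, _, _, e5, ⟨a1, a2 (n + 1) e5 (by omega)⟩,
    ⟨b1, b2 (n + 1) e5 (by omega)⟩, ⟨c1, c2 (n + 1) e5 (by omega)⟩,
    ⟨L _ _ _ _ _ a3 l1, L _ _ _ _ _ b3 l2, L _ _ _ _ _ c3 l3⟩, ⟨?_, ?_, ?_⟩, hB⟩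
  · linarith
  · linarith
  · linarith

/-- **From one-bead functions to the two-class inequality.** -/
theorem TC_of_sources {u p1 Qa Qb Qc : ℕ} (hN : n + 1 = k + (u + 1)) (hk2 : 2 ≤ k)
    (hk : k + 1 ≤ n) (hQa : 2 ≤ Qa) (hQb : 2 ≤ Qb) (hQc : 2 ≤ Qc)
    (va vb vc : ℕ → ℕ → ℝ) (τa τb τc ca cb cc εa εb εc : ℝ) (hcb : 0 ≤ cb) (hcc : 0 ≤ cc)
    (hva : ∀ q p, p1 ≤ p → va q p = 0) (hvb : ∀ q p, p1 ≤ p → vb q p = 0)
    (hvc : ∀ q p, p1 ≤ p → vc q p = 0)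
    (h0a : ∑ p ∈ range p1, va 0 p * r1 (k + 1) p = 0)
    (h0b : ∑ p ∈ range p1, vb 0 p * r1 k p = 0)
    (h0c : ∑ p ∈ range p1, vc 0 p * r1 (k + 1) p = 0)
    {K₁ : ℕ} (H : ∀ K, K₁ ≤ K → ∃ a b c : Finset ℕ → ℝ,
      (∀ B ∈ Lv K (n + 1), 0 ≤ a B ∧ 0 ≤ c B ∧ b B ^ 2 ≤ a B * c B) ∧
      loss K (k + 1) (n + 1) (fun B => ca + HI K (k + 1) u Qa va τa B) a ≤ εa ∧
      loss K k (n + 1) (fun B => cb + HI K k (u + 1) Qb vb τb B) b ≤ εb ∧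
      loss K (k + 1) (n + 1) (fun B => cc + HI K (k + 1) u Qc vc τc B) c ≤ εc) :
    TC n k (u + 1) ca (-sv (k + 1) p1 (va 1) - εa) ((-sv k p1 (vb 1) - εb) * (k + 1) / k)
      ((cc + 2 * cb) / k) ((-sv (k + 1) p1 (vc 1) - εc) / k ^ 2) :=
  TC_lim hN hk (by omega) hcb hcc
    (PCert_of_sources hN hk2 hQa hQb hQc va vb vc τa τb τc ca cb cc εa εb εc hva hvb hvc h0a h0b
      h0c H)

/-- **The cross bound from one harmonic function**, one-sided values `≤ - q / m!` at the level `m`. -/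
theorem cross_val {m : ℕ} (hM : n + 1 < M) (hm : m ≤ n) (v : Finset ℕ → ℝ) (c q : ℝ) (hq : 0 < q)
    (h1 : Harm M m (n + 1) v) (h2 : Val (n + 1) M m v 0 q)
    (h3 : ∀ B ∈ Lv M (n + 1), |v B| ≤ c) (A B : Finset (Perm (Fin (n + 1))))
    (hAB : ∀ σ ∈ A, ∀ τ ∈ B, n + 1 - m ≤ (univ.filter fun i => σ i = τ i).card) :
    (A.card : ℝ) * B.card ≤ (c / q * m.factorial) ^ 2 := by
  classical
  have hf : (0 : ℝ) < m.factorial := by exact_mod_cast m.factorial_pos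
  rcases Nat.eq_zero_or_pos A.card with hA0 | hA0
  · rw [hA0, Nat.cast_zero, zero_mul]
    positivity
  rcases Nat.eq_zero_or_pos B.card with hB0 | hB0
  · rw [hB0, Nat.cast_zero, mul_zero]
    positivity
  have ha : (0 : ℝ) < A.card := by exact_mod_cast hA0
  have hb : (0 : ℝ) < B.card := by exact_mod_cast hB0
  obtain ⟨S, hS⟩ : ∃ S : ℝ, S = -(vec A ⬝ᵥ (G (n + 1) M v (n + 1)).mulVec (vec B)) := ⟨_, rfl⟩
  have hS1 : q * (A.card * B.card / m.factorial) ≤ S := by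
    have e : ∑ σ ∈ A, ∑ τ ∈ B, G (n + 1) M v (n + 1) σ τ ≤
        ∑ σ ∈ A, ∑ τ ∈ B, (- q / m.factorial) := by
      refine Finset.sum_le_sum fun σ hσ => Finset.sum_le_sum fun τ hτ => ?_
      have := pair_le hM hm (Or.inr rfl) v 0 q h1 h2 (fun h => by omega) (hAB σ hσ τ hτ)
      refine this.trans (le_of_eq ?_)
      split_ifs <;> ring
    rw [hS, vec_quad]
    rw [Finset.sum_const, Finset.sum_const, nsmul_eq_mul, nsmul_eq_mul] at e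
    have e2 : (A.card : ℝ) * (B.card * (-q / m.factorial)) =
        -(q * (A.card * B.card / m.factorial)) := by ring
    rw [e2] at e
    linarith
  have hS2 : S = -∑ D ∈ Lv M (n + 1), v D * ((P (n + 1) M (n + 1) D).mulVec (vec A) ⬝ᵥ
      (P (n + 1) M (n + 1) D).mulVec (vec B)) := by
    rw [hS, quad_G' hM le_rfl v (vec A) (vec B)]
  have hnorm : ∀ F : Finset (Perm (Fin (n + 1))), ∑ D ∈ Lv M (n + 1),
      (P (n + 1) M (n + 1) D).mulVec (vec F) ⬝ᵥ (P (n + 1) M (n + 1) D).mulVec (vec F) =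
        F.card := by
    intro F
    rw [Finset.sum_congr rfl fun D _ => (quad_P' hM le_rfl D (vec F) (vec F)).symm,
      ← dotProduct_sum, sum_P_mulVec hM le_rfl, Pool.JM.vec_dot]
  have key : ∀ x y : ℝ, 0 ≤ x → 0 ≤ y → 2 * (x * y) * S ≤ c * (x ^ 2 * A.card + y ^ 2 * B.card) := by
    intro x y hx hy
    rw [← hnorm A, ← hnorm B, hS2, mul_neg, ← neg_mul, Finset.mul_sum, Finset.mul_sum,
      Finset.mul_sum, ← Finset.sum_add_distrib, Finset.mul_sum]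
    refine Finset.sum_le_sum fun D hD => ?_
    simp only [dotProduct]
    rw [Finset.mul_sum, Finset.mul_sum, Finset.mul_sum, Finset.mul_sum, ← Finset.sum_add_distrib,
      Finset.mul_sum]
    refine Finset.sum_le_sum fun σ _ => ?_
    obtain ⟨p, hp⟩ : ∃ p : ℝ, p = (P (n + 1) M (n + 1) D).mulVec (vec A) σ := ⟨_, rfl⟩
    obtain ⟨r, hr⟩ : ∃ r : ℝ, r = (P (n + 1) M (n + 1) D).mulVec (vec B) σ := ⟨_, rfl⟩
    rw [← hp, ← hr]
    have hv := abs_le.1 (h3 D hD)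
    have h5 : 0 ≤ (c + v D) * (x * p + y * r) ^ 2 := mul_nonneg (by linarith) (sq_nonneg _)
    have h6 : 0 ≤ (c - v D) * (x * p - y * r) ^ 2 := mul_nonneg (by linarith) (sq_nonneg _)
    nlinarith
  have hk := key (Real.sqrt B.card) (Real.sqrt A.card) (Real.sqrt_nonneg _) (Real.sqrt_nonneg _)
  rw [Real.sq_sqrt hb.le, Real.sq_sqrt ha.le] at hk
  obtain ⟨z, hz⟩ : ∃ z : ℝ, z = Real.sqrt B.card * Real.sqrt A.card := ⟨_, rfl⟩
  rw [← hz] at hk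
  have hz0 : 0 < z := by rw [hz]; exact mul_pos (Real.sqrt_pos.2 hb) (Real.sqrt_pos.2 ha)
  have hz2 : z ^ 2 = A.card * B.card := by
    rw [hz, mul_pow, Real.sq_sqrt hb.le, Real.sq_sqrt ha.le, mul_comm]
  have h9 : 2 * z * (q * (z ^ 2 / m.factorial)) ≤ c * (2 * z ^ 2) := by
    have h10 : 2 * z * (q * (z ^ 2 / m.factorial)) ≤ 2 * z * S := by
      rw [hz2]
      exact mul_le_mul_of_nonneg_left hS1 (by positivity)
    refine h10.trans (hk.trans (le_of_eq ?_))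
    rw [hz2]
    ring
  have h7 : z * (z ^ 2) ≤ (c / q * m.factorial) * z ^ 2 := by
    have e1 : z * z ^ 2 = 2 * z * (q * (z ^ 2 / m.factorial)) * (m.factorial / (2 * q)) := by
      field_simp
    rw [e1]
    refine (mul_le_mul_of_nonneg_right h9 (by positivity)).trans (le_of_eq ?_)
    field_simp
  have h8 : z ≤ c / q * m.factorial := le_of_mul_le_mul_right h7 (by positivity)
  rw [← hz2]
  exact pow_le_pow_left₀ hz0.le h8 2

/-- the cross bound with an override -/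
theorem CB_rare {m : ℕ} (hM : n + 1 < M) (hm : m ≤ n) (v0 v : Finset ℕ → ℝ) (c q l : ℝ)
    (hq : 0 < q - l) (h1 : Harm M m (n + 1) v0) (h2 : Val (n + 1) M m v0 0 q)
    (hl : loss M m (n + 1) v0 v ≤ l) (h3 : ∀ B ∈ Lv M (n + 1), |v B| ≤ c) :
    CB (n + 1) (n + 1 - m) ((c / (q - l) * m.factorial) ^ 2) := by
  obtain ⟨v', a1, a2, a3⟩ := override (N := n + 1) hM (by omega) le_rfl v0
    (fun B => v B - v0 B) 0 q h1 h2
  have ea : ∀ B ∈ Lv M (n + 1), v' B = v B := fun B hB => by rw [a1 B hB]; ring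
  intro Q B h
  exact cross_val hM hm v' c (q - l) hq a2 (val_mono a3 le_rfl (sub_le_sub_left hl _))
    (fun D hD => by rw [ea D hD]; exact h3 D hD) Q B h

/-- **The cross bound from one one-bead function** at the level `m`, `n + 1 = m + u`; any `q` smaller than
`- sv - ε`. -/
theorem CB_of_source {m u p1 Q : ℕ} (hN : n + 1 = m + u) (hu : 1 ≤ u) (hm : 2 ≤ m) (hQ : 2 ≤ Q)
    (v : ℕ → ℕ → ℝ) (τ c ε q : ℝ) (hv : ∀ q p, p1 ≤ p → v q p = 0)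
    (h0 : ∑ p ∈ range p1, v 0 p * r1 m p = 0) (hq : 0 < q) (hq1 : q < -sv m p1 (v 1) - ε)
    {K₁ : ℕ} (H : ∀ K, K₁ ≤ K → ∃ a : Finset ℕ → ℝ, (∀ B ∈ Lv K (n + 1), |a B| ≤ c) ∧
      loss K m (n + 1) (fun B => 0 + HI K m u Q v τ B) a ≤ ε) :
    CB (n + 1) u ((c / q * m.factorial) ^ 2) := by
  have hF : (0 : ℝ) < (m.factorial : ℝ) := by exact_mod_cast m.factorial_pos
  obtain ⟨δ, hδ⟩ : ∃ δ : ℝ, δ = -sv m p1 (v 1) - ε - q := ⟨_, rfl⟩
  have hδ0 : 0 < δ := by linarith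
  obtain ⟨d, hd⟩ : ∃ d : ℝ, d = δ / (1 + (m.factorial : ℝ)) := ⟨_, rfl⟩
  have hd0 : 0 < d := by rw [hd]; positivity
  have hd1 : d + (m.factorial : ℝ) * d = δ := by rw [hd]; field_simp
  obtain ⟨Ka, hKa⟩ := source_inf (t := u) hm hQ v τ 0 hv h0 hd0
  obtain ⟨K, hK⟩ : ∃ K, K = max Ka K₁ + (n + 2) := ⟨_, rfl⟩
  have e1 : Ka ≤ K := by have := le_max_left Ka K₁; omega
  have e4 : K₁ ≤ K := by have := le_max_right Ka K₁; omega
  have e5 : n + 1 < K := by omega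
  obtain ⟨a0, a1, a2, a3⟩ := hKa K e1
  rw [← hN] at a1 a3
  obtain ⟨a, hB, l1⟩ := H K e4
  have hl : loss K m (n + 1) a0 a ≤ m.factorial * d + ε := by
    refine (loss_trans K m (n + 1) a0 _ a).trans (add_le_add ?_ l1)
    refine loss_le_of_sup e5 fun B hB' => ?_
    rw [abs_sub_comm]
    exact a3 B hB'
  have hqq : q = -sv m p1 (v 1) - d - (m.factorial * d + ε) := by linarith
  have h := CB_rare e5 (by omega : m ≤ n) a0 a c (-sv m p1 (v 1) - d) (m.factorial * d + ε)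
    (by linarith) a1 (a2 (n + 1) e5 (by omega)) hl hB
  rw [← hqq, show n + 1 - m = u by omega] at h
  exact h

end Pool.TW.H27
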