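import Pool.Agent.Work.MP_46fa68_28.Joint
import Pool.Agent.Work.MP_46fa68_h4.Rho

/-!
# MP_46fa68_co, S4: the variance reduction (VR)

`C` a set of beads, `mv C z` = a box added at the bead `z`, `w C z = Rr C z 1` its weight.
* `Rr_erase`: one bead taken out of `Rr`.
* `Rr_mv_below`: a box added at `z`, `z + 1 < x`, multiplies `Rr C x p` by `1 + p / ((x - z - 1) (x + p - z))`.
* `kerov`: `∑ w C x / (v - x)` in closed form.
* `sum_below`: the mean of the last factor over all `z` below the largest bead.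
* `vr_one`, `vr_two`: what is left of the variance sum of `joint_cell` for one or two long rows (finite sums).
-/

set_option autoImplicit false

open Finset Polynomial

namespace Pool.JM.VR

theorem w_eq_Rr (C : Finset ℕ) (x : ℕ) : w C x = Rr C x 1 := by
  unfold w Rr
  rw [Nat.factorial_succ]
  have h1 : (x.factorial : ℝ) ≠ 0 := by exact_mod_cast x.factorial_ne_zero
  have h2 : (x : ℝ) + 1 ≠ 0 := by positivity
  push_cast
  field_simp

theorem Rr_zero {B : Finset ℕ} {x : ℕ} : Rr B x 0 = 1 := by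
  unfold Rr
  rw [prod_eq_one]
  · have h1 : (x.factorial : ℝ) ≠ 0 := by exact_mod_cast x.factorial_ne_zero
    simp [h1]
  · intro y hy
    have : (x : ℝ) - y ≠ 0 := by
      rw [sub_ne_zero]
      intro h
      exact ne_of_mem_erase hy (Nat.cast_injective h).symm
    rw [Nat.cast_zero, add_zero, div_self this]

/-- take one bead out -/
theorem Rr_erase {B : Finset ℕ} {x z : ℕ} (hz : z ∈ B) (hzx : z ≠ x) (p : ℕ) :
    Rr B x p = (((x : ℝ) + p - z) / ((x : ℝ) - z)) * Rr (B.erase z) x p := by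
  unfold Rr
  have e : (B.erase z).erase x = (B.erase x).erase z := by
    ext y
    simp only [mem_erase]
    tauto
  rw [e, ← mul_prod_erase (B.erase x) _ (mem_erase.2 ⟨hzx, hz⟩)]
  ring

/-- move one other bead -/
theorem Rr_mv_erase {C : Finset ℕ} {x z : ℕ} (hz1 : z + 1 ∉ C) (hzx : z + 1 ≠ x) (p : ℕ) :
    Rr (mv C z) x p = (((x : ℝ) + p - (z + 1)) / ((x : ℝ) - (z + 1))) * Rr (C.erase z) x p := by
  have h1 : z + 1 ∈ mv C z := mem_insert_self _ _
  have e : (mv C z).erase (z + 1) = C.erase z :=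
    erase_insert fun h => hz1 (mem_of_mem_erase h)
  rw [Rr_erase h1 hzx, e]
  push_cast
  rfl

/-- **a box added below the bead `x`** -/
theorem Rr_mv_below {C : Finset ℕ} {x z : ℕ} (hz : z ∈ C) (hz1 : z + 1 ∉ C) (hzx : z + 1 < x)
    (p : ℕ) :
    Rr (mv C z) x p =
      Rr C x p * (1 + p / (((x : ℝ) - z - 1) * ((x : ℝ) + p - z))) := by
  rw [Rr_mv_erase hz1 hzx.ne, Rr_erase hz (by omega)]
  have h1 : (z : ℝ) + 1 < x := by exact_mod_cast hzx
  have h2 : (0 : ℝ) ≤ p := Nat.cast_nonneg p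
  have n1 : (x : ℝ) - (z + 1) ≠ 0 := by linarith
  have n2 : (x : ℝ) - z ≠ 0 := by linarith
  have n3 : (x : ℝ) + p - z ≠ 0 := by linarith
  have n4 : (x : ℝ) - z - 1 ≠ 0 := by linarith
  field_simp
  ring

/-- **the transform of the weights** -/
theorem kerov {B : Finset ℕ} (h0 : 0 ∈ B) {v : ℝ} (hv : ∀ i ∈ B, v ≠ (i : ℝ)) (hv1 : v + 1 ≠ 0) :
    ∑ x ∈ B, w B x / (v - x) = (∏ y ∈ B, ((v + 1 - y) / (v - y))) / (v + 1) := by
  have h1 := Lagrange.eq_interpolate (inj B) (Q_degree B h0)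
  have h2 := Lagrange.eval_interpolate_not_at_node (s := B) (v := fun x : ℕ => (x : ℝ))
    (fun i : ℕ => (Q B).eval ((i : ℕ) : ℝ)) (x := v) hv
  rw [← h1] at h2
  have h4 : (Lagrange.nodal B fun x : ℕ => (x : ℝ)).eval v ≠ 0 := by
    rw [Lagrange.eval_nodal]
    refine Finset.prod_ne_zero_iff.2 fun i hi => sub_ne_zero.2 (hv i hi)
  have h5 : (v + 1) * (Q B).eval v = ∏ y ∈ B, (v + 1 - y) := by
    rw [Q_eval, ← mul_prod_erase B _ h0]
    simp
  have h6 : ∑ x ∈ B, w B x / (v - x) =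
      ∑ i ∈ B, Lagrange.nodalWeight B (fun x : ℕ => (x : ℝ)) i * (v - i)⁻¹ *
        (Q B).eval ((i : ℕ) : ℝ) := by
    refine Finset.sum_congr rfl fun x hx => ?_
    rw [w_eq B h0 hx, Lagrange.nodalWeight, prod_inv_distrib]
    ring
  rw [h6, prod_div_distrib, ← h5]
  rw [Lagrange.eval_nodal] at h2 h4
  rw [h2]
  field_simp

theorem w_nn {B : Finset ℕ} {x : ℕ} : 0 ≤ w B x := by
  by_cases h : x + 1 ∈ B
  · rw [w_zero h]
  · exact (w_pos h).le

theorem Rr_erase_self (B : Finset ℕ) (x p : ℕ) : Rr (B.erase x) x p = Rr B x p := by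
  unfold Rr
  rw [erase_idem]

/-- the mean relative change of `Rr C x p` by a box below the largest bead `x` -/
theorem sum_below {C : Finset ℕ} {x : ℕ} (hx : x ∈ C) (h0 : 0 ∈ C.erase x) (hmax : ∀ y ∈ C, y ≤ x)
    (p : ℕ) :
    (∑ z ∈ (ad C).erase x, w C z * (p / (((x : ℝ) - z - 1) * ((x : ℝ) + p - z)))) * Rr C x p ≤
      Rr C x 1 * Rr C x p - Rr C x (p + 1) := by
  have hp0 : (0 : ℝ) ≤ p := Nat.cast_nonneg p
  have hlt : ∀ z ∈ C.erase x, (z : ℝ) + 1 ≤ x := fun z hz => by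
    rw [mem_erase] at hz
    have := hmax z hz.2
    exact_mod_cast (by omega : z + 1 ≤ x)
  have hpos := Rr_pos hmax p
  -- the transforms of `C.erase x`
  have k1 := kerov h0 (v := (x : ℝ)) (fun i hi h => by
    have := hlt i hi
    linarith) (by positivity)
  have k2 := kerov h0 (v := (x : ℝ) + p) (fun i hi h => by
    have := hlt i hi
    linarith) (by positivity)
  have e1 : (∏ y ∈ C.erase x, (((x : ℝ) + 1 - y) / (x - y))) / ((x : ℝ) + 1) = Rr C x 1 := by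
    rw [← w_eq_Rr]
    rfl
  have e2 : (∏ y ∈ C.erase x, (((x : ℝ) + p + 1 - y) / (x + p - y))) / ((x : ℝ) + p + 1) *
      Rr C x p = Rr C x (p + 1) := by
    rw [Rr_succ hmax p]
    ring
  rw [e1] at k1
  have e3 : Rr C x 1 * Rr C x p - Rr C x (p + 1) =
      (∑ z ∈ C.erase x, w (C.erase x) z * (p / (((x : ℝ) - z) * ((x : ℝ) + p - z)))) *
        Rr C x p := by
    rw [← e2, ← k1, ← k2, ← sub_mul, ← sum_sub_distrib]
    congr 1
    refine sum_congr rfl fun z hz => ?_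
    have h1 := hlt z hz
    have n1 : (x : ℝ) - z ≠ 0 := by linarith
    have n2 : (x : ℝ) + p - z ≠ 0 := by linarith
    field_simp
    ring
  rw [e3]
  refine mul_le_mul_of_nonneg_right ?_ hpos.le
  refine (sum_le_sum fun z hz => ?_).trans
    (sum_le_sum_of_subset_of_nonneg (s := (ad C).erase x) (fun z hz => ?_) fun z hz _ => ?_)
  · rw [mem_erase, mem_ad] at hz
    have h1 := hlt z (mem_erase.2 ⟨hz.1, hz.2.1⟩)
    have hz2 : z + 1 ≠ x := fun h => hz.2.2 (h ▸ hx)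
    have h2 : (z : ℝ) + 1 < x := lt_of_le_of_ne h1 (by exact_mod_cast hz2)
    have e4 : w C z = (((z : ℝ) + 1 - x) / ((z : ℝ) - x)) * w (C.erase x) z := by
      rw [w_eq_Rr, w_eq_Rr, Rr_erase hx (Ne.symm hz.1)]
      push_cast
      rfl
    rw [e4]
    refine le_of_eq ?_
    have n1 : (x : ℝ) - z ≠ 0 := by linarith
    have n2 : (x : ℝ) + p - z ≠ 0 := by linarith
    have n3 : (x : ℝ) - z - 1 ≠ 0 := by linarith
    have n4 : (z : ℝ) - x ≠ 0 := by linarith
    field_simp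
    ring
  · rw [mem_erase, mem_ad] at hz
    exact mem_erase.2 ⟨hz.1, hz.2.1⟩
  · have h1 := hlt z hz
    exact mul_nonneg w_nn (div_nonneg hp0 (mul_nonneg (by linarith) (by linarith)))

/-- the part of the bead `x` in a one-body function -/
noncomputable def pt (k : ℕ → ℕ → ℝ) (A : ℕ) (B : Finset ℕ) (x : ℕ) : ℝ :=
  ∑ p ∈ range A, k x p * Rr B x p

/-- the relative change of `Rr C x p` by a box added at `z` -/
noncomputable def ch (x z p : ℕ) : ℝ := p / (((x : ℝ) - z - 1) * ((x : ℝ) + p - z))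

theorem ch_nonneg {x z p : ℕ} (h : z + 1 < x) : 0 ≤ ch x z p := by
  have h1 : (z : ℝ) + 1 < x := by exact_mod_cast h
  have hp : (0 : ℝ) ≤ p := Nat.cast_nonneg p
  unfold ch
  exact div_nonneg hp (mul_nonneg (by linarith) (by linarith))

theorem pt_below (k : ℕ → ℕ → ℝ) (A : ℕ) {C : Finset ℕ} {x z : ℕ} (hz : z ∈ C) (hz1 : z + 1 ∉ C)
    (hzx : z + 1 < x) :
    pt k A (mv C z) x - pt k A C x = ∑ p ∈ range A, k x p * Rr C x p * ch x z p := by
  unfold pt ch
  rw [← sum_sub_distrib]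
  refine sum_congr rfl fun p _ => ?_
  rw [Rr_mv_below hz hz1 hzx]
  ring

theorem pt_below_abs (k : ℕ → ℕ → ℝ) (A : ℕ) {C : Finset ℕ} {x z : ℕ} (hz : z ∈ C)
    (hz1 : z + 1 ∉ C) (hzx : z + 1 < x) :
    |pt k A (mv C z) x - pt k A C x| ≤ ∑ p ∈ range A, |k x p| * |Rr C x p| * ch x z p := by
  rw [pt_below k A hz hz1 hzx]
  refine (abs_sum_le_sum_abs _ _).trans (le_of_eq ?_)
  refine sum_congr rfl fun p _ => ?_
  rw [abs_mul, abs_mul, abs_of_nonneg (ch_nonneg hzx)]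

theorem w_sum_le {C : Finset ℕ} (h0 : 0 ∈ C) {S : Finset ℕ} (hS : S ⊆ C) :
    ∑ z ∈ S, w C z ≤ 1 := by
  rw [← w_sum C h0]
  exact sum_le_sum_of_subset_of_nonneg hS fun _ _ _ => w_nn

theorem below_lt {C : Finset ℕ} {x z : ℕ} (hx : x ∈ C) (hmax : ∀ y ∈ C, y ≤ x)
    (hz : z ∈ (ad C).erase x) : z ∈ C ∧ z + 1 ∉ C ∧ z + 1 < x := by
  rw [mem_erase, mem_ad] at hz
  refine ⟨hz.2.1, hz.2.2, ?_⟩
  have h1 := hmax z hz.2.1
  have h2 : z + 1 ≠ x := fun h => hz.2.2 (h ▸ hx)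
  have h3 := hz.1
  omega

/-- **one long row**: all boxes except the one in the first row -/
theorem vr_one {C : Finset ℕ} {x : ℕ} (hx : x ∈ C) (h0 : 0 ∈ C.erase x) (hmax : ∀ y ∈ C, y ≤ x)
    (k : ℕ → ℕ → ℝ) (A : ℕ) (f g : Finset ℕ → ℝ) (f0 ε δ g0 : ℝ) (hε : 0 ≤ ε) (hδ0 : 0 ≤ δ)
    (hg0 : 0 < g0)
    (hf : ∀ z ∈ (ad C).erase x, |f (mv C z) - (f0 - pt k A (mv C z) x)| ≤ ε)
    (hg : ∀ z ∈ (ad C).erase x, g0 ≤ g (mv C z))
    (hδ : ∀ z ∈ (ad C).erase x, ∑ p ∈ range A, |k x p| * Rr C x p * ch x z p ≤ δ) :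
    ∑ z ∈ (ad C).erase x, w C z * ((f (mv C z) - (f0 - pt k A C x)) ^ 2 / g (mv C z)) ≤
      (ε ^ 2 + (2 * ε + δ) *
        ∑ p ∈ range A, |k x p| * (Rr C x 1 * Rr C x p - Rr C x (p + 1))) / g0 := by
  have hR : ∀ p, 0 < Rr C x p := Rr_pos hmax
  set dz : ℕ → ℝ := fun z => ∑ p ∈ range A, |k x p| * Rr C x p * ch x z p with hdz
  have hd0 : ∀ z ∈ (ad C).erase x, 0 ≤ dz z := fun z hz =>
    sum_nonneg fun p _ => mul_nonneg (mul_nonneg (abs_nonneg _) (hR p).le)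
      (ch_nonneg (below_lt hx hmax hz).2.2)
  have hsub : (ad C).erase x ⊆ C := fun z hz => (below_lt hx hmax hz).1
  have h1 : ∀ z ∈ (ad C).erase x, w C z * ((f (mv C z) - (f0 - pt k A C x)) ^ 2 / g (mv C z)) ≤
      (w C z * ε ^ 2 + (2 * ε + δ) * (w C z * dz z)) / g0 := by
    intro z hz
    obtain ⟨a1, a2, a3⟩ := below_lt hx hmax hz
    have b1 := pt_below_abs k A a1 a2 a3
    have b2 := hf z hz
    have b3 : |f (mv C z) - (f0 - pt k A C x)| ≤ ε + dz z := by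
      have e : f (mv C z) - (f0 - pt k A C x) = (f (mv C z) - (f0 - pt k A (mv C z) x)) -
          (pt k A (mv C z) x - pt k A C x) := by ring
      rw [e]
      refine (abs_sub _ _).trans (add_le_add b2 (b1.trans (le_of_eq ?_)))
      refine sum_congr rfl fun p _ => ?_
      rw [abs_of_pos (hR p)]
    have b4 : (f (mv C z) - (f0 - pt k A C x)) ^ 2 ≤ ε ^ 2 + (2 * ε + δ) * dz z := by
      rw [← sq_abs]
      have c1 := hd0 z hz
      have c2 := hδ z hz
      have c3 : |f (mv C z) - (f0 - pt k A C x)| ^ 2 ≤ (ε + dz z) ^ 2 :=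
        pow_le_pow_left₀ (abs_nonneg _) b3 2
      have c4 : dz z * dz z ≤ δ * dz z := mul_le_mul_of_nonneg_right c2 c1
      nlinarith
    have b5 : (f (mv C z) - (f0 - pt k A C x)) ^ 2 / g (mv C z) ≤
        (ε ^ 2 + (2 * ε + δ) * dz z) / g0 :=
      div_le_div₀ ((sq_nonneg _).trans b4) b4 hg0 (hg z hz)
    refine (mul_le_mul_of_nonneg_left b5 w_nn).trans (le_of_eq ?_)
    ring
  refine (sum_le_sum h1).trans ?_
  rw [← sum_div, sum_add_distrib, ← sum_mul, ← mul_sum]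
  refine div_le_div_of_nonneg_right ?_ hg0.le
  have h2 : (∑ z ∈ (ad C).erase x, w C z) * ε ^ 2 ≤ ε ^ 2 := by
    have := w_sum_le (mem_of_mem_erase h0) hsub
    have e2 := sq_nonneg ε
    nlinarith
  have h3 : ∑ z ∈ (ad C).erase x, w C z * dz z ≤
      ∑ p ∈ range A, |k x p| * (Rr C x 1 * Rr C x p - Rr C x (p + 1)) := by
    have e : ∑ z ∈ (ad C).erase x, w C z * dz z =
        ∑ p ∈ range A, |k x p| * ((∑ z ∈ (ad C).erase x, w C z *
          (p / (((x : ℝ) - z - 1) * ((x : ℝ) + p - z)))) * Rr C x p) := by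
      simp only [hdz, mul_sum, sum_mul]
      rw [sum_comm]
      refine sum_congr rfl fun p _ => sum_congr rfl fun z _ => ?_
      unfold ch
      ring
    rw [e]
    exact sum_le_sum fun p _ => mul_le_mul_of_nonneg_left (sum_below hx h0 hmax p) (abs_nonneg _)
  have h4 : 0 ≤ 2 * ε + δ := by linarith
  have := mul_le_mul_of_nonneg_left h3 h4
  linarith

/-- **two long rows** `y < x`: all boxes below both of them -/
theorem vr_two {C : Finset ℕ} {x y : ℕ} (h0 : 0 ∈ C) (hy : y ∈ C.erase x)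
    (hmax : ∀ z ∈ C, z ≤ x) (hmax2 : ∀ z ∈ C.erase x, z ≤ y)
    (k : ℕ → ℕ → ℝ) (A : ℕ) (f g : Finset ℕ → ℝ) (f0 ε δ g0 : ℝ) (hg0 : 0 < g0)
    (hf : ∀ z ∈ ((ad C).erase x).erase y,
      |f (mv C z) - (f0 - pt k A (mv C z) x - pt k A (mv C z) y)| ≤ ε)
    (hg : ∀ z ∈ ((ad C).erase x).erase y, g0 ≤ g (mv C z))
    (hδ : ∀ z ∈ ((ad C).erase x).erase y, ∑ p ∈ range A, |k x p| * Rr C x p * ch x z p +
      ∑ p ∈ range A, |k y p| * |Rr C y p| * ch y z p ≤ δ) :
    ∑ z ∈ ((ad C).erase x).erase y,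
      w C z * ((f (mv C z) - (f0 - pt k A C x - pt k A C y)) ^ 2 / g (mv C z)) ≤
      (ε + δ) ^ 2 / g0 := by
  have hR : ∀ p, 0 < Rr C x p := Rr_pos hmax
  have hyx : y < x := lt_of_le_of_ne (hmax y (mem_of_mem_erase hy)) (ne_of_mem_erase hy)
  have hlt : ∀ z ∈ ((ad C).erase x).erase y, z ∈ C ∧ z + 1 ∉ C ∧ z + 1 < y := fun z hz => by
    rw [mem_erase, mem_erase, mem_ad] at hz
    refine ⟨hz.2.2.1, hz.2.2.2, ?_⟩
    have h1 := hmax2 z (mem_erase.2 ⟨hz.2.1, hz.2.2.1⟩)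
    have h2 : z + 1 ≠ y := fun h => hz.2.2.2 (h ▸ mem_of_mem_erase hy)
    have h3 := hz.1
    omega
  have h1 : ∀ z ∈ ((ad C).erase x).erase y,
      w C z * ((f (mv C z) - (f0 - pt k A C x - pt k A C y)) ^ 2 / g (mv C z)) ≤
      w C z * ((ε + δ) ^ 2 / g0) := by
    intro z hz
    obtain ⟨a1, a2, a3⟩ := hlt z hz
    have b1 := pt_below_abs k A a1 a2 (by omega : z + 1 < x)
    have b1' := pt_below_abs k A a1 a2 a3
    have b2 := hf z hz
    have b3 : |f (mv C z) - (f0 - pt k A C x - pt k A C y)| ≤ ε + δ := by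
      have e : f (mv C z) - (f0 - pt k A C x - pt k A C y) =
          (f (mv C z) - (f0 - pt k A (mv C z) x - pt k A (mv C z) y)) -
          ((pt k A (mv C z) x - pt k A C x) + (pt k A (mv C z) y - pt k A C y)) := by ring
      rw [e]
      refine (abs_sub _ _).trans (add_le_add b2 ?_)
      refine (abs_add_le _ _).trans ((add_le_add b1 b1').trans ?_)
      refine (le_of_eq ?_).trans (hδ z hz)
      congr 1
      refine sum_congr rfl fun p _ => ?_
      rw [abs_of_pos (hR p)]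
    refine mul_le_mul_of_nonneg_left ?_ w_nn
    have b4 : (f (mv C z) - (f0 - pt k A C x - pt k A C y)) ^ 2 ≤ (ε + δ) ^ 2 := by
      rw [← sq_abs]
      exact pow_le_pow_left₀ (abs_nonneg _) b3 2
    exact div_le_div₀ (sq_nonneg _) b4 hg0 (hg z hz)
  refine (sum_le_sum h1).trans ?_
  rw [← sum_mul]
  have h2 := w_sum_le h0 (S := ((ad C).erase x).erase y) fun z hz => (hlt z hz).1
  have h3 : 0 ≤ (ε + δ) ^ 2 / g0 := by positivity
  nlinarith

end Pool.JM.VR
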